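import Mathlib

set_option autoImplicit false

open MeasureTheory AddCircle Filter Topology
open scoped ENNReal

namespace Pool.Agent.Helper192.Hp

instance fact2pi : Fact (0 < 2 * Real.pi) := ⟨Real.two_pi_pos⟩

/-- the unit circle, parametrised by the angle -/
noncomputable abbrev TT := AddCircle (2 * Real.pi)

/-- normalised Lebesgue measure on the circle -/
noncomputable abbrev mu : Measure TT := haarAddCircle

/-- Lebesgue space of the circle -/
noncomputable abbrev LP (p : ℝ≥0∞) := Lp ℂ p mu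

section basics

variable {p : ℝ≥0∞} [hp1 : Fact (1 ≤ p)]

theorem LP_integrable (f : LP p) : Integrable f mu :=
  (Lp.memLp f).integrable hp1.out

theorem integral_norm_le (f : LP p) : ∫ t, ‖f t‖ ∂mu ≤ ‖f‖ := by
  rw [Lp.norm_def, integral_norm_eq_lintegral_enorm (LP_integrable f).aestronglyMeasurable,
    ← eLpNorm_one_eq_lintegral_enorm]
  apply ENNReal.toReal_mono (Lp.memLp f).2.ne
  exact eLpNorm_le_eLpNorm_of_exponent_le hp1.out (LP_integrable f).aestronglyMeasurable

theorem norm_fourier_smul (k : ℤ) (t : TT) (c : ℂ) : ‖fourier k t • c‖ = ‖c‖ := by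
  rw [norm_smul, fourier_apply, Circle.norm_coe, one_mul]

theorem norm_fourierCoeff_le (f : LP p) (k : ℤ) : ‖fourierCoeff f k‖ ≤ ‖f‖ := by
  refine le_trans ?_ (integral_norm_le f)
  unfold fourierCoeff
  refine (norm_integral_le_integral_norm _).trans (le_of_eq ?_)
  apply integral_congr_ae
  filter_upwards with t
  exact norm_fourier_smul _ _ _

/-- the `k`-th Fourier coefficient as a continuous functional -/
noncomputable def coeffL (p : ℝ≥0∞) [hp1 : Fact (1 ≤ p)] (k : ℤ) : LP p →L[ℂ] ℂ :=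
  LinearMap.mkContinuous
    { toFun := fun f => fourierCoeff f k
      map_add' := fun f g => by
        rw [fourierCoeff_congr_ae (Lp.coeFn_add f g), fourierCoeff.add (LP_integrable f) (LP_integrable g)]
        rfl
      map_smul' := fun c f => by
        rw [fourierCoeff_congr_ae (Lp.coeFn_smul c f), fourierCoeff.const_smul]
        rfl } 1 (fun f => by
      rw [one_mul]
      exact norm_fourierCoeff_le f k)

theorem coeffL_apply (k : ℤ) (f : LP p) : coeffL p k f = fourierCoeff f k := rfl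

theorem coeffL_norm_le (k : ℤ) (f : LP p) : ‖coeffL p k f‖ ≤ ‖f‖ := norm_fourierCoeff_le f k

/-- class of a continuous function -/
noncomputable def cl (p : ℝ≥0∞) [Fact (1 ≤ p)] (f : C(TT, ℂ)) : LP p := ContinuousMap.toLp (E := ℂ) p mu ℂ f

theorem cl_ae (f : C(TT, ℂ)) : cl p f =ᵐ[mu] f := ContinuousMap.coeFn_toLp mu f

theorem cl_add (f g : C(TT, ℂ)) : cl p (f + g) = cl p f + cl p g := map_add _ _ _

theorem cl_sub (f g : C(TT, ℂ)) : cl p (f - g) = cl p f - cl p g := map_sub _ _ _

theorem cl_smul (c : ℂ) (f : C(TT, ℂ)) : cl p (c • f) = c • cl p f := map_smul _ _ _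

theorem cl_sum {ι : Type} (s : Finset ι) (f : ι → C(TT, ℂ)) : cl p (∑ i ∈ s, f i) = ∑ i ∈ s, cl p (f i) :=
  map_sum _ _ _

theorem coeffL_cl (k : ℤ) (f : C(TT, ℂ)) : coeffL p k (cl p f) = fourierCoeff f k := by
  rw [coeffL_apply, fourierCoeff_congr_ae (cl_ae f)]

theorem cont_integrable (f : C(TT, ℂ)) : Integrable f mu :=
  f.continuous.integrable_of_hasCompactSupport (HasCompactSupport.of_compactSpace f)

theorem cont_integrable_real {f : TT → ℝ} (hf : Continuous f) : Integrable f mu :=
  hf.integrable_of_hasCompactSupport (HasCompactSupport.of_compactSpace f)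

theorem norm_cl_rpow (hp : p ≠ ∞) (f : C(TT, ℂ)) : ‖cl p f‖ ^ p.toReal = ∫ t, ‖f t‖ ^ p.toReal ∂mu := by
  have hp0 : p ≠ 0 := (lt_of_lt_of_le one_pos hp1.out).ne'
  have hpr : 0 < p.toReal := ENNReal.toReal_pos hp0 hp
  have hmem : MemLp f p mu := by
    have := Lp.memLp (cl p f)
    exact (memLp_congr_ae (cl_ae f)).mp this
  rw [Lp.norm_def, eLpNorm_congr_ae (cl_ae f), hmem.eLpNorm_eq_integral_rpow_norm hp0 hp,
    ENNReal.toReal_ofReal (by positivity), ← Real.rpow_mul (by positivity), inv_mul_cancel₀ hpr.ne',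
    Real.rpow_one]

theorem one_le_toReal (hp : p ≠ ∞) : 1 ≤ p.toReal := by
  rw [← ENNReal.toReal_one]
  exact ENNReal.toReal_mono hp hp1.out

theorem fourier_one_eq (t : ℝ) : (fourier 1 (t : TT) : ℂ) = circleMap 0 1 t := by
  rw [fourier_coe_apply]
  unfold circleMap
  have : (Real.pi : ℂ) ≠ 0 := by exact_mod_cast Real.pi_ne_zero
  rw [zero_add, Complex.ofReal_one, one_mul]
  congr 1
  push_cast
  field_simp

theorem fourier_one_norm (t : TT) : ‖(fourier 1 t : ℂ)‖ = 1 := by
  rw [fourier_apply, Circle.norm_coe]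

/-- pullback of a function that is continuous on the closed disc -/
theorem holo_coeff {F : ℂ → ℂ} (hF : DiffContOnCl ℂ F (Metric.ball 0 1)) (f : TT → ℂ)
    (hf : ∀ t, f t = F (fourier 1 t)) (j : ℕ) : fourierCoeff f (-(j : ℤ)) = if j = 0 then F 0 else 0 := by
  have hG : DiffContOnCl ℂ (fun z => z ^ j * F z) (Metric.ball 0 |(1 : ℝ)|) := by
    rw [abs_one]
    have : DiffContOnCl ℂ (fun z : ℂ => z ^ j) (Metric.ball 0 1) := (differentiable_pow j).diffContOnCl
    exact this.smul hF
  have h1 := hG.circleAverage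
  rw [Real.circleAverage_def] at h1
  rw [fourierCoeff_eq_intervalIntegral f (-(j : ℤ)) 0, zero_add]
  have h2 : ∀ x : ℝ, (fourier (- -(j : ℤ)) (x : TT) : ℂ) • f (x : TT) = circleMap 0 1 x ^ j * F (circleMap 0 1 x) := by
    intro x
    rw [neg_neg, smul_eq_mul, hf, fourier_one_eq]
    congr 1
    rw [← fourier_one_eq, fourier_apply, fourier_apply, one_smul, natCast_zsmul, toCircle_nsmul]
    push_cast
    rfl
  simp only [h2]
  rw [one_div, h1]
  by_cases hj : j = 0
  · subst hj
    simp
  · rw [if_neg hj, zero_pow hj, zero_mul]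

end basics

end Pool.Agent.Helper192.Hp
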