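import Mathlib
import Pool.Agent.Helper192.Hardy.A

set_option autoImplicit false

open MeasureTheory AddCircle Filter Topology
open scoped ENNReal

namespace Pool.Agent.Helper192.Hp

section blaschke

/-- disc automorphism `z ↦ (z + r) / (1 + r z)` -/
noncomputable def bF (r : ℝ) (z : ℂ) : ℂ := (z + r) / (1 + r * z)

theorem bF_den {r : ℝ} (h0 : 0 ≤ r) (h1 : r < 1) {z : ℂ} (hz : ‖z‖ ≤ 1) : (1 + r * z : ℂ) ≠ 0 := by
  intro h
  have h2 : ‖(r * z : ℂ)‖ = 1 := by
    have : (r * z : ℂ) = -1 := by linear_combination h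
    rw [this]
    simp
  rw [norm_mul, Complex.norm_real, Real.norm_of_nonneg h0] at h2
  nlinarith [norm_nonneg z]

theorem bF_diff {r : ℝ} (h0 : 0 ≤ r) (h1 : r < 1) : DiffContOnCl ℂ (bF r) (Metric.ball 0 1) := by
  apply DifferentiableOn.diffContOnCl
  rw [closure_ball _ one_ne_zero]
  intro z hz
  have hz' : ‖z‖ ≤ 1 := by simpa using hz
  have := bF_den h0 h1 hz'
  unfold bF
  apply DifferentiableAt.differentiableWithinAt
  have h2 : DifferentiableAt ℂ (fun z : ℂ => z + r) z := by fun_prop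
  have h3 : DifferentiableAt ℂ (fun z : ℂ => 1 + r * z) z := by fun_prop
  exact h2.div h3 this

theorem bF_norm {r : ℝ} (h0 : 0 ≤ r) (h1 : r < 1) {z : ℂ} (hz : ‖z‖ = 1) : ‖bF r z‖ = 1 := by
  have h2 := bF_den h0 h1 hz.le
  unfold bF
  rw [norm_div]
  have h3 : ‖z + r‖ = ‖(1 + r * z : ℂ)‖ := by
    have h4 : ‖z + r‖ ^ 2 = ‖(1 + r * z : ℂ)‖ ^ 2 := by
      rw [← Complex.normSq_eq_norm_sq, ← Complex.normSq_eq_norm_sq]
      have h5 : z.re ^ 2 + z.im ^ 2 = 1 := by
        have : Complex.normSq z = 1 := by rw [Complex.normSq_eq_norm_sq, hz]; norm_num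
        rw [Complex.normSq_apply] at this
        nlinarith
      simp only [Complex.normSq_apply, Complex.add_re, Complex.add_im, Complex.mul_re, Complex.mul_im,
        Complex.ofReal_re, Complex.ofReal_im, Complex.one_re, Complex.one_im]
      have h6 : z.re ^ 2 = 1 - z.im ^ 2 := by linarith
      ring_nf
      rw [h6]
      ring
    exact (pow_left_inj₀ (norm_nonneg _) (norm_nonneg _) two_ne_zero).mp h4
  rw [h3, div_self]
  exact norm_ne_zero_iff.mpr h2

noncomputable def bl {r : ℝ} (h0 : 0 ≤ r) (h1 : r < 1) : C(TT, ℂ) where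
  toFun := fun t => bF r (fourier 1 t)
  continuous_toFun := by
    have h2 : ContinuousOn (bF r) (Metric.closedBall 0 1) := by
      have := (bF_diff h0 h1).2
      rwa [closure_ball _ one_ne_zero] at this
    apply h2.comp_continuous (map_continuous _)
    intro t
    rw [mem_closedBall_zero_iff, fourier_one_norm]

theorem bl_norm {r : ℝ} (h0 : 0 ≤ r) (h1 : r < 1) (t : TT) : ‖bl h0 h1 t‖ = 1 :=
  bF_norm h0 h1 (fourier_one_norm t)

theorem bl_pow_coeff {r : ℝ} (h0 : 0 ≤ r) (h1 : r < 1) (k j : ℕ) :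
    fourierCoeff (fun t => bl h0 h1 t ^ k) (-(j : ℤ)) = if j = 0 then (r : ℂ) ^ k else 0 := by
  have h2 : DiffContOnCl ℂ (fun z => bF r z ^ k) (Metric.ball 0 1) := by
    constructor
    · exact (bF_diff h0 h1).1.pow k
    · exact (bF_diff h0 h1).2.pow k
  rw [holo_coeff h2 (fun t => bl h0 h1 t ^ k) (fun t => rfl) j]
  congr 1
  unfold bF
  simp

/-- every unimodular number is a value of `fourier 1` -/
theorem exists_angle {c : ℂ} (hc : ‖c‖ = 1) : ∃ β : TT, ∀ k : ℕ, (fourier (k : ℤ) β : ℂ) = c ^ k := by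
  refine ⟨((Complex.arg c : ℝ) : TT), ?_⟩
  intro k
  rw [fourier_coe_apply]
  have h1 : c = Complex.exp (Complex.arg c * Complex.I) := by
    have := Complex.norm_mul_exp_arg_mul_I c
    rw [hc, Complex.ofReal_one, one_mul] at this
    exact this.symm
  nth_rewrite 2 [h1]
  rw [← Complex.exp_nat_mul]
  congr 1
  have : (Real.pi : ℂ) ≠ 0 := by exact_mod_cast Real.pi_ne_zero
  push_cast
  field_simp

end blaschke

section main

variable {p : ℝ≥0∞} [hp1 : Fact (1 ≤ p)]

/-- analytic trigonometric polynomial -/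
noncomputable def pol (n : ℕ) (c : ℕ → ℂ) : C(TT, ℂ) := ∑ k ∈ Finset.range n, c k • fourier (k : ℤ)

theorem pol_apply (n : ℕ) (c : ℕ → ℂ) (t : TT) : pol n c t = ∑ k ∈ Finset.range n, c k * fourier (k : ℤ) t := by
  simp [pol]

theorem jensen (hp : p ≠ ∞) (g : C(TT, ℂ)) : ‖∫ t, g t ∂mu‖ ^ p.toReal ≤ ∫ t, ‖g t‖ ^ p.toReal ∂mu := by
  rw [← norm_cl_rpow hp]
  have h1 := norm_fourierCoeff_le (cl p g) 0
  rw [fourierCoeff_congr_ae (cl_ae g)] at h1
  have h2 : fourierCoeff g 0 = ∫ t, g t ∂mu := by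
    unfold fourierCoeff
    simp
  rw [h2] at h1
  have := one_le_toReal (p := p) hp
  gcongr

theorem rpow_cont {X : Type} [TopologicalSpace X] {f : X → ℂ} (hf : Continuous f) (hp : p ≠ ∞) :
    Continuous (fun x => ‖f x‖ ^ p.toReal) := by
  have h1 := one_le_toReal (p := p) hp
  exact hf.norm.rpow_const (fun _ => Or.inr (by linarith))

theorem prod_integrable {f : TT × TT → ℝ} (hf : Continuous f) : Integrable f (mu.prod mu) :=
  hf.integrable_of_hasCompactSupport (HasCompactSupport.of_compactSpace f)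

theorem swap {f : TT → TT → ℝ} (hf : Continuous (Function.uncurry f)) :
    ∫ z, ∫ w, f z w ∂mu ∂mu = ∫ w, ∫ z, f z w ∂mu ∂mu :=
  integral_integral_swap (prod_integrable hf)

theorem inner_cont {f : TT → TT → ℝ} (hf : Continuous (Function.uncurry f)) :
    Integrable (fun z => ∫ w, f z w ∂mu) mu := (prod_integrable hf).integral_prod_left

theorem rot (f : TT → ℝ) (β : TT) : ∫ z, f (z + β) ∂mu = ∫ z, f z ∂mu :=
  integral_add_right_eq_self f β

/-- Key inequality: dilations are no worse than `I - K₀`. -/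
theorem key (hp : p ≠ ∞) (ρ : ℝ)
    (H : ∀ h : C(TT, ℂ), (∀ j : ℕ, j ≠ 0 → fourierCoeff h (-(j : ℤ)) = 0) →
      ∫ t, ‖h t - fourierCoeff h 0‖ ^ p.toReal ∂mu ≤ ρ ^ p.toReal * ∫ t, ‖h t‖ ^ p.toReal ∂mu)
    (n : ℕ) (c : ℕ → ℂ) {r : ℝ} (h0 : 0 ≤ r) (h1 : r < 1) :
    ∫ t, ‖pol n c t - pol n (fun k => c k * (r : ℂ) ^ (2 * k)) t‖ ^ p.toReal ∂mu
      ≤ ρ ^ p.toReal * ∫ t, ‖pol n c t‖ ^ p.toReal ∂mu := by
  set b := bl h0 h1 with hb
  have hbc : Continuous b := map_continuous _
  have hbn : ∀ w, ‖b w‖ = 1 := bl_norm h0 h1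
  have hfc : ∀ k : ℤ, Continuous (fun t : TT => (fourier k t : ℂ)) := fun k => map_continuous _
  have hpos : 0 ≤ p.toReal := by linarith [one_le_toReal (p := p) hp]
  -- step 4 : Jensen
  have s4 : ∫ z, ‖pol n c z - pol n (fun k => c k * (r : ℂ) ^ (2 * k)) z‖ ^ p.toReal ∂mu ≤
      ∫ z, ∫ w, ‖∑ k ∈ Finset.range n, c k * fourier (k : ℤ) z * (1 - (r : ℂ) ^ k * (starRingEnd ℂ) (b w) ^ k)‖ ^ p.toReal ∂mu ∂mu := by
    apply integral_mono
    · apply cont_integrable_real
      apply rpow_cont _ hp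
      exact (map_continuous _).sub (map_continuous _)
    · apply inner_cont
      apply rpow_cont _ hp
      have : Continuous (starRingEnd ℂ) := Complex.continuous_conj
      fun_prop
    · intro z
      let g : C(TT, ℂ) := ⟨fun w => ∑ k ∈ Finset.range n, c k * fourier (k : ℤ) z * (1 - (r : ℂ) ^ k * (starRingEnd ℂ) (b w) ^ k), by
        have : Continuous (starRingEnd ℂ) := Complex.continuous_conj
        fun_prop⟩
      have h2 := jensen (p := p) hp g
      have h3 : ∫ w, g w ∂mu = pol n c z - pol n (fun k => c k * (r : ℂ) ^ (2 * k)) z := by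
        show ∫ w, ∑ k ∈ Finset.range n, c k * fourier (k : ℤ) z * (1 - (r : ℂ) ^ k * (starRingEnd ℂ) (b w) ^ k) ∂mu = _
        have hint : ∀ k : ℕ, Integrable (fun w => (starRingEnd ℂ) (b w) ^ k) mu := by
          intro k
          have : Continuous (starRingEnd ℂ) := Complex.continuous_conj
          exact cont_integrable ⟨fun w => (starRingEnd ℂ) (b w) ^ k, by fun_prop⟩
        rw [integral_finsetSum]
        · rw [pol_apply, pol_apply, ← Finset.sum_sub_distrib]
          apply Finset.sum_congr rfl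
          intro k _
          rw [integral_const_mul]
          have h4 : ∫ w, (1 - (r : ℂ) ^ k * (starRingEnd ℂ) (b w) ^ k) ∂mu = 1 - (r : ℂ) ^ k * (r : ℂ) ^ k := by
            rw [integral_sub (integrable_const _) ((hint k).const_mul _), integral_const_mul]
            have h5 : ∫ w, (starRingEnd ℂ) (b w) ^ k ∂mu = (r : ℂ) ^ k := by
              have h6 := bl_pow_coeff h0 h1 k 0
              unfold fourierCoeff at h6
              simp only [Nat.cast_zero, neg_zero, fourier_zero, one_smul, if_true] at h6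
              have h7 : ∫ w, (starRingEnd ℂ) (b w) ^ k ∂mu = (starRingEnd ℂ) (∫ w, b w ^ k ∂mu) := by
                rw [← integral_conj]
                simp only [map_pow]
              rw [h7, hb, h6]
              simp
            rw [h5]
            simp
          rw [h4]
          ring
        · intro k _
          apply Integrable.const_mul
          exact (integrable_const _).sub ((hint k).const_mul _)
      rw [h3] at h2
      exact h2
  refine s4.trans ?_
  -- swap and rotate
  have s3 : ∫ z, ∫ w, ‖∑ k ∈ Finset.range n, c k * fourier (k : ℤ) z * (1 - (r : ℂ) ^ k * (starRingEnd ℂ) (b w) ^ k)‖ ^ p.toReal ∂mu ∂mu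
      = ∫ z, ∫ w, ‖∑ k ∈ Finset.range n, c k * fourier (k : ℤ) z * (b w ^ k - (r : ℂ) ^ k)‖ ^ p.toReal ∂mu ∂mu := by
    refine (swap ?_).trans (Eq.trans ?_ (swap ?_).symm)
    · apply rpow_cont _ hp
      have : Continuous (starRingEnd ℂ) := Complex.continuous_conj
      fun_prop
    · apply integral_congr_ae
      filter_upwards with w
      obtain ⟨β, hβ⟩ := exists_angle (hbn w)
      rw [← rot (fun z => ‖∑ k ∈ Finset.range n, c k * fourier (k : ℤ) z * (1 - (r : ℂ) ^ k * (starRingEnd ℂ) (b w) ^ k)‖ ^ p.toReal) β]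
      apply integral_congr_ae
      filter_upwards with z
      congr 2
      apply Finset.sum_congr rfl
      intro k _
      have h5 : (fourier (k : ℤ) (z + β) : ℂ) = fourier (k : ℤ) z * b w ^ k := by
        rw [fourier_apply, smul_add, toCircle_add, Circle.coe_mul, ← fourier_apply, ← fourier_apply, hβ]
      have h6 : b w * (starRingEnd ℂ) (b w) = 1 := by
        rw [Complex.mul_conj, Complex.normSq_eq_norm_sq, hbn]
        norm_num
      rw [h5]
      have h7 : b w ^ k * (starRingEnd ℂ) (b w) ^ k = 1 := by rw [← mul_pow, h6, one_pow]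
      linear_combination (-(c k) * fourier (k : ℤ) z * (r : ℂ) ^ k) * h7
    · apply rpow_cont _ hp
      fun_prop
  rw [s3]
  -- inner inequality
  have s2 : ∀ z : TT, ∫ w, ‖∑ k ∈ Finset.range n, c k * fourier (k : ℤ) z * (b w ^ k - (r : ℂ) ^ k)‖ ^ p.toReal ∂mu ≤
      ρ ^ p.toReal * ∫ w, ‖∑ k ∈ Finset.range n, c k * fourier (k : ℤ) z * b w ^ k‖ ^ p.toReal ∂mu := by
    intro z
    let h : C(TT, ℂ) := ⟨fun w => ∑ k ∈ Finset.range n, c k * fourier (k : ℤ) z * b w ^ k, by fun_prop⟩
    have hco : ∀ j : ℕ, fourierCoeff h (-(j : ℤ)) = ∑ k ∈ Finset.range n, c k * fourier (k : ℤ) z * (if j = 0 then (r : ℂ) ^ k else 0) := by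
      intro j
      have h5 : (h : TT → ℂ) = ∑ k ∈ Finset.range n, (fun w => (c k * fourier (k : ℤ) z) * b w ^ k) := by
        ext w
        rw [Finset.sum_apply]
        rfl
      rw [h5, fourierCoeff.sum, Finset.sum_apply]
      · apply Finset.sum_congr rfl
        intro k _
        rw [fourierCoeff.const_mul, bl_pow_coeff]
      · intro k _
        exact cont_integrable ⟨fun w => (c k * fourier (k : ℤ) z) * b w ^ k, by fun_prop⟩
    have h6 := H h (by
      intro j hj
      rw [hco]
      simp [hj])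
    have h7 : fourierCoeff h 0 = ∑ k ∈ Finset.range n, c k * fourier (k : ℤ) z * (r : ℂ) ^ k := by
      have := hco 0
      simpa using this
    rw [h7] at h6
    refine le_trans (le_of_eq ?_) h6
    apply integral_congr_ae
    filter_upwards with w
    congr 2
    show _ = (∑ k ∈ Finset.range n, c k * fourier (k : ℤ) z * b w ^ k) - _
    rw [← Finset.sum_sub_distrib]
    apply Finset.sum_congr rfl
    intro k _
    ring
  have s1 : ∫ z, ∫ w, ‖∑ k ∈ Finset.range n, c k * fourier (k : ℤ) z * (b w ^ k - (r : ℂ) ^ k)‖ ^ p.toReal ∂mu ∂mu ≤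
      ∫ z, ρ ^ p.toReal * ∫ w, ‖∑ k ∈ Finset.range n, c k * fourier (k : ℤ) z * b w ^ k‖ ^ p.toReal ∂mu ∂mu := by
    apply integral_mono
    · apply inner_cont
      apply rpow_cont _ hp
      fun_prop
    · apply Integrable.const_mul
      apply inner_cont
      apply rpow_cont _ hp
      fun_prop
    · exact s2
  refine s1.trans (le_of_eq ?_)
  rw [integral_const_mul]
  congr 1
  rw [swap]
  · have h8 : ∀ w, ∫ z, ‖∑ k ∈ Finset.range n, c k * fourier (k : ℤ) z * b w ^ k‖ ^ p.toReal ∂mu = ∫ z, ‖pol n c z‖ ^ p.toReal ∂mu := by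
      intro w
      obtain ⟨β, hβ⟩ := exists_angle (hbn w)
      rw [← rot (fun z => ‖pol n c z‖ ^ p.toReal) β]
      apply integral_congr_ae
      filter_upwards with z
      congr 2
      rw [pol_apply]
      apply Finset.sum_congr rfl
      intro k _
      have h5 : (fourier (k : ℤ) (z + β) : ℂ) = fourier (k : ℤ) z * b w ^ k := by
        rw [fourier_apply, smul_add, toCircle_add, Circle.coe_mul, ← fourier_apply, ← fourier_apply, hβ]
      rw [h5]
      ring
    simp only [h8]
    simp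
  · apply rpow_cont _ hp
    fun_prop

end main

end Pool.Agent.Helper192.Hp
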