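import Mathlib
import Pool.Agent.Helper192.Hardy.A
import Pool.Agent.Helper192.Hardy.B

set_option autoImplicit false

open MeasureTheory AddCircle Filter Topology
open scoped ENNReal

namespace Pool.Agent.Helper192.Hp

section density

variable {p : ℝ≥0∞} [hp1 : Fact (1 ≤ p)]

/-- The Hardy space `H^p` as a subspace of `L^p` of the circle. -/
noncomputable def HardySp (p : ℝ≥0∞) [Fact (1 ≤ p)] : Submodule ℂ (LP p) where
  carrier := {f | ∀ k : ℤ, k < 0 → fourierCoeff f k = 0}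
  add_mem' := by
    intro f g hf hg k hk
    rw [← coeffL_apply, map_add, coeffL_apply, coeffL_apply, hf k hk, hg k hk, add_zero]
  zero_mem' := by
    intro k _
    rw [← coeffL_apply, map_zero]
  smul_mem' := by
    intro c f hf k hk
    rw [← coeffL_apply, map_smul, coeffL_apply, hf k hk, smul_zero]

theorem mem_HardySp {f : LP p} : f ∈ HardySp p ↔ ∀ k : ℤ, k < 0 → fourierCoeff f k = 0 := Iff.rfl

theorem Hp_closed : IsClosed (HardySp p : Set (LP p)) := by
  have h : (HardySp p : Set (LP p)) = ⋂ k : ℤ, ⋂ _ : k < 0, {f | coeffL p k f = 0} := by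
    ext f
    simp only [Set.mem_iInter]
    exact Iff.rfl
  rw [h]
  apply isClosed_iInter
  intro k
  apply isClosed_iInter
  intro _
  exact isClosed_eq (coeffL p k).continuous continuous_const

instance : CompleteSpace (HardySp p) := Hp_closed.completeSpace_coe

/-- general trigonometric polynomial -/
noncomputable def tpol (c : ℤ →₀ ℂ) : C(TT, ℂ) := c.sum (fun k a => a • fourier k)

theorem tpol_apply (c : ℤ →₀ ℂ) (t : TT) : tpol c t = ∑ k ∈ c.support, c k * fourier k t := by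
  simp [tpol, Finsupp.sum]

theorem bl_zpow_int {r : ℝ} (h0 : 0 ≤ r) (h1 : r < 1) (k : ℤ) :
    ∫ w, bl h0 h1 w ^ k ∂mu = (r : ℂ) ^ k.natAbs := by
  have hn : ∀ n : ℕ, ∫ w, bl h0 h1 w ^ n ∂mu = (r : ℂ) ^ n := by
    intro n
    have h6 := bl_pow_coeff h0 h1 n 0
    unfold fourierCoeff at h6
    simpa using h6
  rcases Int.eq_nat_or_neg k with ⟨n, rfl | rfl⟩
  · simpa using hn n
  · have h2 : ∀ w, bl h0 h1 w ^ (-(n : ℤ)) = (starRingEnd ℂ) (bl h0 h1 w ^ n) := by
      intro w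
      rw [zpow_neg, zpow_natCast, map_pow, ← inv_pow]
      congr 1
      rw [Complex.inv_def, Complex.normSq_eq_norm_sq, bl_norm]
      simp
    simp only [h2]
    have h3 : ∫ w, (starRingEnd ℂ) (bl h0 h1 w ^ n) ∂mu = (starRingEnd ℂ) (∫ w, bl h0 h1 w ^ n ∂mu) := integral_conj
    rw [h3, hn]
    simp

theorem exists_angle' {c : ℂ} (hc : ‖c‖ = 1) : ∃ β : TT, ∀ k : ℤ, (fourier k β : ℂ) = c ^ k := by
  obtain ⟨β, hβ⟩ := exists_angle hc
  refine ⟨β, ?_⟩
  intro k
  have h1 : (fourier 1 β : ℂ) = c := by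
    have := hβ 1
    simpa using this
  rw [← h1, fourier_apply, fourier_apply, one_smul, toCircle_zsmul, Circle.coe_zpow]

theorem poisson_contr (hp : p ≠ ∞) (c : ℤ →₀ ℂ) {r : ℝ} (h0 : 0 ≤ r) (h1 : r < 1) :
    ∫ z, ‖∑ k ∈ c.support, c k * (r : ℂ) ^ k.natAbs * fourier k z‖ ^ p.toReal ∂mu
      ≤ ∫ z, ‖tpol c z‖ ^ p.toReal ∂mu := by
  set b := bl h0 h1 with hb
  have hbc : Continuous b := map_continuous _
  have hbn : ∀ w, ‖b w‖ = 1 := bl_norm h0 h1
  have hb0 : ∀ w, b w ≠ 0 := fun w => norm_ne_zero_iff.mp (by rw [hbn]; exact one_ne_zero)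
  have hbz : ∀ k : ℤ, Continuous (fun w => b w ^ k) := fun k => hbc.zpow₀ k (fun w => Or.inl (hb0 w))
  have hfc : ∀ k : ℤ, Continuous (fun t : TT => (fourier k t : ℂ)) := fun k => map_continuous _
  have hcont : Continuous (Function.uncurry (fun z w : TT => ‖∑ k ∈ c.support, c k * b w ^ k * fourier k z‖ ^ p.toReal)) := by
    apply rpow_cont _ hp
    apply continuous_finsetSum
    intro k _
    exact (continuous_const.mul ((hbz k).comp continuous_snd)).mul ((hfc k).comp continuous_fst)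
  have s1 : ∫ z, ‖∑ k ∈ c.support, c k * (r : ℂ) ^ k.natAbs * fourier k z‖ ^ p.toReal ∂mu ≤
      ∫ z, ∫ w, ‖∑ k ∈ c.support, c k * b w ^ k * fourier k z‖ ^ p.toReal ∂mu ∂mu := by
    apply integral_mono
    · apply cont_integrable_real
      apply rpow_cont _ hp
      fun_prop
    · exact inner_cont hcont
    · intro z
      let g : C(TT, ℂ) := ⟨fun w => ∑ k ∈ c.support, c k * b w ^ k * fourier k z, by fun_prop⟩
      have h2 := jensen (p := p) hp g
      have h3 : ∫ w, g w ∂mu = ∑ k ∈ c.support, c k * (r : ℂ) ^ k.natAbs * fourier k z := by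
        show ∫ w, ∑ k ∈ c.support, c k * b w ^ k * fourier k z ∂mu = _
        rw [integral_finsetSum]
        · apply Finset.sum_congr rfl
          intro k _
          rw [integral_mul_const, integral_const_mul, hb, bl_zpow_int]
        · intro k _
          exact ((cont_integrable ⟨fun w => b w ^ k, hbz k⟩).const_mul _).mul_const _
      rw [h3] at h2
      exact h2
  refine s1.trans (le_of_eq ?_)
  rw [swap hcont]
  have h8 : ∀ w, ∫ z, ‖∑ k ∈ c.support, c k * b w ^ k * fourier k z‖ ^ p.toReal ∂mu = ∫ z, ‖tpol c z‖ ^ p.toReal ∂mu := by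
    intro w
    obtain ⟨β, hβ⟩ := exists_angle' (hbn w)
    rw [← rot (fun z => ‖tpol c z‖ ^ p.toReal) β]
    apply integral_congr_ae
    filter_upwards with z
    congr 2
    rw [tpol_apply]
    apply Finset.sum_congr rfl
    intro k _
    have h5 : (fourier k (z + β) : ℂ) = fourier k z * b w ^ k := by
      rw [fourier_apply, smul_add, toCircle_add, Circle.coe_mul, ← fourier_apply, ← fourier_apply, hβ]
    rw [h5]
    ring
  simp only [h8]
  simp

/-- rank one coefficient operator -/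
noncomputable def EL (p : ℝ≥0∞) [Fact (1 ≤ p)] (k : ℤ) : LP p →L[ℂ] LP p :=
  (coeffL p k).smulRight (cl p (fourier k))

theorem EL_apply (k : ℤ) (f : LP p) : EL p k f = fourierCoeff f k • cl p (fourier k) := rfl

theorem norm_cl_le (f : C(TT, ℂ)) : ‖cl p f‖ ≤ ‖f‖ := by
  have h := ContinuousMap.toLp_norm_le (p := p) (μ := mu) (E := ℂ) (𝕜 := ℂ)
  have h2 := (ContinuousMap.toLp (E := ℂ) p mu ℂ).le_opNorm f
  unfold cl
  refine h2.trans ?_
  have h3 : (measureUnivNNReal mu : ℝ) = 1 := by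
    have : measureUnivNNReal mu = 1 := by
      unfold measureUnivNNReal
      simp
    rw [this]
    simp
  rw [h3, Real.one_rpow] at h
  calc ‖ContinuousMap.toLp (E := ℂ) p mu ℂ‖ * ‖f‖ ≤ 1 * ‖f‖ := by gcongr
    _ = ‖f‖ := one_mul _

theorem fourier_norm_le (k : ℤ) : ‖cl p (fourier k)‖ ≤ 1 := (norm_cl_le _).trans (by rw [fourier_norm])

theorem EL_norm_le (k : ℤ) : ‖EL p k‖ ≤ 1 := by
  apply ContinuousLinearMap.opNorm_le_bound _ zero_le_one
  intro f
  rw [EL_apply, norm_smul]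
  calc ‖fourierCoeff f k‖ * ‖cl p (fourier k)‖ ≤ ‖f‖ * 1 := by
        gcongr
        · exact norm_fourierCoeff_le f k
        · exact fourier_norm_le k
    _ = 1 * ‖f‖ := by ring

theorem summable_rabs {r : ℝ} (h0 : 0 ≤ r) (h1 : r < 1) : Summable (fun k : ℤ => r ^ k.natAbs) := by
  apply Summable.of_nat_of_neg
  · simpa using summable_geometric_of_lt_one h0 h1
  · simpa using summable_geometric_of_lt_one h0 h1

theorem TL_summable {r : ℝ} (h0 : 0 ≤ r) (h1 : r < 1) :
    Summable (fun k : ℤ => ((r : ℂ) ^ k.natAbs) • EL p k) := by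
  apply Summable.of_norm_bounded (summable_rabs h0 h1)
  intro k
  rw [norm_smul, norm_pow, Complex.norm_real, Real.norm_of_nonneg h0]
  calc r ^ k.natAbs * ‖EL p k‖ ≤ r ^ k.natAbs * 1 := by
        gcongr
        exact EL_norm_le k
    _ = _ := mul_one _

/-- Poisson means -/
noncomputable def TL (p : ℝ≥0∞) [Fact (1 ≤ p)] (r : ℝ) : LP p →L[ℂ] LP p :=
  ∑' k : ℤ, ((r : ℂ) ^ k.natAbs) • EL p k

theorem TL_hasSum {r : ℝ} (h0 : 0 ≤ r) (h1 : r < 1) (f : LP p) :
    HasSum (fun k : ℤ => ((r : ℂ) ^ k.natAbs * fourierCoeff f k) • cl p (fourier k)) (TL p r f) := by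
  have h := (TL_summable (p := p) h0 h1).hasSum
  have h2 := h.mapL (ContinuousLinearMap.apply ℂ (LP p) f)
  have h3 : (fun k : ℤ => (ContinuousLinearMap.apply ℂ (LP p) f) (((r : ℂ) ^ k.natAbs) • EL p k)) =
      (fun k : ℤ => ((r : ℂ) ^ k.natAbs * fourierCoeff f k) • cl p (fourier k)) := by
    ext1 k
    rw [ContinuousLinearMap.apply_apply, smul_apply, EL_apply, smul_smul]
  rw [h3] at h2
  exact h2

theorem fc_fourier (j k : ℤ) : fourierCoeff (cl p (fourier j)) k = if k = j then 1 else 0 := by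
  rw [fourierCoeff_congr_ae (cl_ae _), fourierCoeff_fourier]
  by_cases h : k = j
  · subst h
    simp
  · simp [h]

theorem TL_fourier {r : ℝ} (h0 : 0 ≤ r) (h1 : r < 1) (j : ℤ) :
    TL p r (cl p (fourier j)) = ((r : ℂ) ^ j.natAbs) • cl p (fourier j) := by
  have h := TL_hasSum h0 h1 (cl p (fourier j))
  refine h.unique ?_
  have h2 := hasSum_ite_eq j (((r : ℂ) ^ j.natAbs) • cl p (fourier j))
  refine h2.congr_fun ?_
  intro k
  rw [fc_fourier]
  by_cases hk : k = j
  · subst hk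
    simp
  · simp [hk]

theorem cl_tpol (c : ℤ →₀ ℂ) : cl p (tpol c) = ∑ k ∈ c.support, c k • cl p (fourier k) := by
  unfold tpol Finsupp.sum
  rw [cl_sum]
  simp only [cl_smul]

theorem rpow_le_imp {a b q : ℝ} (ha : 0 ≤ a) (hb : 0 ≤ b) (hq : 0 < q) (h : a ^ q ≤ b ^ q) : a ≤ b :=
  (Real.rpow_le_rpow_iff ha hb hq).mp h

theorem TL_tpol_norm (hp : p ≠ ∞) {r : ℝ} (h0 : 0 ≤ r) (h1 : r < 1) (c : ℤ →₀ ℂ) :
    ‖TL p r (cl p (tpol c))‖ ≤ ‖cl p (tpol c)‖ := by
  have hq : 0 < p.toReal := by linarith [one_le_toReal (p := p) hp]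
  apply rpow_le_imp (norm_nonneg _) (norm_nonneg _) hq
  have h2 : TL p r (cl p (tpol c)) = cl p (∑ k ∈ c.support, (c k * (r : ℂ) ^ k.natAbs) • fourier k) := by
    rw [cl_tpol, map_sum, cl_sum]
    apply Finset.sum_congr rfl
    intro k _
    rw [map_smul, TL_fourier h0 h1, smul_smul, cl_smul]
  rw [h2, norm_cl_rpow hp, norm_cl_rpow hp]
  refine le_trans (le_of_eq ?_) (poisson_contr hp c h0 h1)
  apply integral_congr_ae
  filter_upwards with z
  congr 2
  simp

theorem tpol_dense (hp : p ≠ ∞) (f : LP p) (ε : ℝ) (hε : 0 < ε) : ∃ c : ℤ →₀ ℂ, ‖f - cl p (tpol c)‖ < ε := by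
  have h := span_fourierLp_closure_eq_top (T := 2 * Real.pi) hp
  have h2 : f ∈ (Submodule.span ℂ (Set.range (@fourierLp (2 * Real.pi) _ p _))).topologicalClosure := by
    rw [h]
    trivial
  have h3 : f ∈ closure ((Submodule.span ℂ (Set.range (@fourierLp (2 * Real.pi) _ p _)) : Submodule ℂ (LP p)) : Set (LP p)) := h2
  rw [Metric.mem_closure_iff] at h3
  obtain ⟨g, hg, hfg⟩ := h3 ε hε
  rw [SetLike.mem_coe, Finsupp.mem_span_range_iff_exists_finsupp] at hg
  obtain ⟨c, rfl⟩ := hg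
  refine ⟨c, ?_⟩
  rw [dist_eq_norm] at hfg
  rw [cl_tpol]
  exact hfg

theorem TL_norm_le (hp : p ≠ ∞) {r : ℝ} (h0 : 0 ≤ r) (h1 : r < 1) (f : LP p) : ‖TL p r f‖ ≤ ‖f‖ := by
  apply le_of_forall_pos_le_add
  intro ε hε
  have hK : 0 < ‖TL p r‖ + 1 := by positivity
  obtain ⟨c, hc⟩ := tpol_dense hp f (ε / (‖TL p r‖ + 1)) (by positivity)
  have h2 : ‖TL p r f‖ ≤ ‖TL p r (cl p (tpol c))‖ + ‖TL p r‖ * ‖f - cl p (tpol c)‖ := by
    have : TL p r f = TL p r (cl p (tpol c)) + TL p r (f - cl p (tpol c)) := by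
      rw [← map_add]
      congr 1
      abel
    rw [this]
    refine (norm_add_le _ _).trans ?_
    gcongr
    exact (TL p r).le_opNorm _
  have h3 := TL_tpol_norm hp h0 h1 c
  have h4 : ‖cl p (tpol c)‖ ≤ ‖f‖ + ‖f - cl p (tpol c)‖ := by
    have : cl p (tpol c) = f - (f - cl p (tpol c)) := by abel
    nth_rewrite 1 [this]
    exact norm_sub_le _ _
  rw [lt_div_iff₀ hK] at hc
  nlinarith [norm_nonneg (TL p r), norm_nonneg (f - cl p (tpol c))]

theorem TL_tendsto_tpol (c : ℤ →₀ ℂ) {rn : ℕ → ℝ} (h0 : ∀ n, 0 ≤ rn n) (h1 : ∀ n, rn n < 1)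
    (hr : Tendsto rn atTop (𝓝 1)) : Tendsto (fun n => TL p (rn n) (cl p (tpol c))) atTop (𝓝 (cl p (tpol c))) := by
  have h2 : ∀ n, TL p (rn n) (cl p (tpol c)) = ∑ k ∈ c.support, (c k * ((rn n : ℝ) : ℂ) ^ k.natAbs) • cl p (fourier k) := by
    intro n
    rw [cl_tpol, map_sum]
    apply Finset.sum_congr rfl
    intro k _
    rw [map_smul, TL_fourier (h0 n) (h1 n), smul_smul]
  simp only [h2]
  rw [cl_tpol]
  apply tendsto_finsetSum
  intro k _
  have h3 : Tendsto (fun n => ((rn n : ℝ) : ℂ)) atTop (𝓝 1) := by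
    have := (Complex.continuous_ofReal.tendsto 1).comp hr
    rw [Complex.ofReal_one] at this
    exact this
  have h4 : Tendsto (fun n => c k * ((rn n : ℝ) : ℂ) ^ k.natAbs) atTop (𝓝 (c k * 1 ^ k.natAbs)) :=
    (h3.pow _).const_mul _
  rw [one_pow, mul_one] at h4
  exact h4.smul_const _

theorem TL_tendsto (hp : p ≠ ∞) (f : LP p) {rn : ℕ → ℝ} (h0 : ∀ n, 0 ≤ rn n) (h1 : ∀ n, rn n < 1)
    (hr : Tendsto rn atTop (𝓝 1)) : Tendsto (fun n => TL p (rn n) f) atTop (𝓝 f) := by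
  rw [Metric.tendsto_atTop]
  intro ε hε
  obtain ⟨c, hc⟩ := tpol_dense hp f (ε / 3) (by positivity)
  obtain ⟨N, hN⟩ := Metric.tendsto_atTop.mp (TL_tendsto_tpol (p := p) c h0 h1 hr) (ε / 3) (by positivity)
  refine ⟨N, fun n hn => ?_⟩
  have h2 := hN n hn
  rw [dist_eq_norm] at h2 ⊢
  have h3 : TL p (rn n) f - f = TL p (rn n) (f - cl p (tpol c)) + (TL p (rn n) (cl p (tpol c)) - cl p (tpol c)) - (f - cl p (tpol c)) := by
    rw [map_sub]
    abel
  rw [h3]
  have h4 := TL_norm_le hp (h0 n) (h1 n) (f - cl p (tpol c))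
  have h5 := norm_sub_le (TL p (rn n) (f - cl p (tpol c)) + (TL p (rn n) (cl p (tpol c)) - cl p (tpol c))) (f - cl p (tpol c))
  have h6 := norm_add_le (TL p (rn n) (f - cl p (tpol c))) (TL p (rn n) (cl p (tpol c)) - cl p (tpol c))
  linarith

theorem pol_mem (n : ℕ) (c : ℕ → ℂ) : cl p (pol n c) ∈ HardySp p := by
  unfold pol
  rw [cl_sum]
  apply Submodule.sum_mem
  intro j _
  rw [cl_smul]
  apply Submodule.smul_mem
  intro k hk
  rw [fc_fourier, if_neg]
  omega

/-- analytic polynomials are dense in `H^p` -/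
theorem pol_dense (hp : p ≠ ∞) (f : LP p) (hf : f ∈ HardySp p) (ε : ℝ) (hε : 0 < ε) :
    ∃ (n : ℕ) (c : ℕ → ℂ), ‖f - cl p (pol n c)‖ < ε := by
  let rn : ℕ → ℝ := fun n => 1 - 1 / ((n : ℝ) + 1)
  have h0 : ∀ n, 0 ≤ rn n := by
    intro n
    simp only [rn]
    have : 1 / ((n : ℝ) + 1) ≤ 1 := by
      rw [div_le_one (by positivity)]
      have : (0 : ℝ) ≤ n := Nat.cast_nonneg n
      linarith
    linarith
  have h1 : ∀ n, rn n < 1 := by
    intro n
    simp only [rn]
    have : 0 < 1 / ((n : ℝ) + 1) := by positivity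
    linarith
  have hr : Tendsto rn atTop (𝓝 1) := by
    have := (tendsto_one_div_add_atTop_nhds_zero_nat (𝕜 := ℝ)).const_sub 1
    rw [sub_zero] at this
    exact this
  obtain ⟨N, hN⟩ := Metric.tendsto_atTop.mp (TL_tendsto hp f h0 h1 hr) (ε / 2) (by positivity)
  have h2 := hN N le_rfl
  rw [dist_comm, dist_eq_norm] at h2
  set r := rn N
  have h3 := TL_hasSum (h0 N) (h1 N) f
  have h4 : HasSum (fun k : ℕ => ((r : ℂ) ^ k * fourierCoeff f k) • cl p (fourier (k : ℤ))) (TL p r f) := by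
    have hinj : Function.Injective (fun k : ℕ => (k : ℤ)) := Nat.cast_injective
    rw [← hinj.hasSum_iff] at h3
    · refine h3.congr_fun ?_
      intro k
      simp [r]
    · intro k hk
      have : k < 0 := by
        by_contra hcon
        push Not at hcon
        exact hk ⟨k.toNat, by simp [hcon]⟩
      rw [hf k this, mul_zero, zero_smul]
  obtain ⟨n, hn⟩ := Metric.tendsto_atTop.mp h4.tendsto_sum_nat (ε / 2) (by positivity)
  refine ⟨n, fun k => (r : ℂ) ^ k * fourierCoeff f k, ?_⟩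
  have h5 := hn n le_rfl
  rw [dist_comm, dist_eq_norm] at h5
  have h6 : cl p (pol n (fun k => (r : ℂ) ^ k * fourierCoeff f k)) =
      ∑ k ∈ Finset.range n, ((r : ℂ) ^ k * fourierCoeff f k) • cl p (fourier (k : ℤ)) := by
    unfold pol
    rw [cl_sum]
    simp only [cl_smul]
  rw [h6]
  have h7 : ∀ a : LP p, f - a = (f - TL p r f) + (TL p r f - a) := fun a => by abel
  rw [h7]
  refine (norm_add_le _ _).trans_lt ?_
  linarith

end density

end Pool.Agent.Helper192.Hp
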