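import Mathlib
import Pool.Agent.Helper192.Hardy.A
import Pool.Agent.Helper192.Hardy.B
import Pool.Agent.Helper192.Hardy.C

set_option autoImplicit false

open MeasureTheory AddCircle Filter Topology
open scoped ENNReal

namespace Pool.Agent.Helper192.Hp

section ops

variable {p : ℝ≥0∞} [hp1 : Fact (1 ≤ p)]

/-- the constant function `1` in `H^p` -/
noncomputable def oneH (p : ℝ≥0∞) [Fact (1 ≤ p)] : HardySp p :=
  ⟨cl p (fourier 0), by
    intro k hk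
    rw [fc_fourier, if_neg hk.ne]⟩

/-- the mean functional `f ↦ f̂(0)` on `H^p` -/
noncomputable def meanH (p : ℝ≥0∞) [Fact (1 ≤ p)] : HardySp p →L[ℂ] ℂ :=
  (coeffL p 0).comp (HardySp p).subtypeL

theorem meanH_apply (f : HardySp p) : meanH p f = fourierCoeff (f : LP p) 0 := rfl

/-- the operator `K₀ f = f̂(0)` on `H^p` -/
noncomputable def K0 (p : ℝ≥0∞) [Fact (1 ≤ p)] : HardySp p →L[ℂ] HardySp p :=
  (meanH p).smulRight (oneH p)

theorem K0_apply (f : HardySp p) : K0 p f = fourierCoeff (f : LP p) 0 • oneH p := rfl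

theorem TL_coeff {r : ℝ} (h0 : 0 ≤ r) (h1 : r < 1) (f : LP p) (k : ℤ) :
    fourierCoeff (TL p r f) k = (r : ℂ) ^ k.natAbs * fourierCoeff f k := by
  have h := (TL_hasSum h0 h1 f).mapL (coeffL p k)
  rw [coeffL_apply] at h
  refine h.unique ?_
  have h2 := hasSum_ite_eq k ((r : ℂ) ^ k.natAbs * fourierCoeff f k)
  refine h2.congr_fun ?_
  intro j
  rw [map_smul, coeffL_apply, fc_fourier]
  by_cases hk : j = k
  · subst hk
    simp
  · rw [if_neg hk, if_neg (Ne.symm hk)]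
    simp

theorem TL_mem {r : ℝ} (h0 : 0 ≤ r) (h1 : r < 1) {f : LP p} (hf : f ∈ HardySp p) : TL p r f ∈ HardySp p := by
  intro k hk
  rw [TL_coeff h0 h1, hf k hk, mul_zero]

/-- the dilation `f(z) ↦ f(rz)` on `H^p` -/
noncomputable def TH (p : ℝ≥0∞) [Fact (1 ≤ p)] {r : ℝ} (h0 : 0 ≤ r) (h1 : r < 1) : HardySp p →L[ℂ] HardySp p :=
  ((TL p r).comp (HardySp p).subtypeL).codRestrict (HardySp p) (fun f => TL_mem h0 h1 f.2)

theorem TH_coe {r : ℝ} (h0 : 0 ≤ r) (h1 : r < 1) (f : HardySp p) : ((TH p h0 h1 f : HardySp p) : LP p) = TL p r f := rfl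

theorem EL_compact (k : ℤ) : IsCompactOperator (EL p k) := by
  have h1 : IsCompactOperator (coeffL p k) := isCompactOperator_of_locallyCompactSpace_dom (coeffL p k)
  have h2 := h1.clm_comp ((1 : ℂ →L[ℂ] ℂ).smulRight (cl p (fourier k)))
  have h3 : (⇑((1 : ℂ →L[ℂ] ℂ).smulRight (cl p (fourier k))) ∘ ⇑(coeffL p k)) = ⇑(EL p k) := by
    ext1 f
    simp [EL]
  rw [h3] at h2
  exact h2

theorem TL_compact {r : ℝ} (h0 : 0 ≤ r) (h1 : r < 1) : IsCompactOperator (TL p r) := by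
  have h := (TL_summable (p := p) h0 h1).hasSum
  refine isCompactOperator_of_tendsto (f := TL p r) (F := fun s : Finset ℤ => ∑ k ∈ s, ((r : ℂ) ^ k.natAbs) • EL p k) h ?_
  filter_upwards with s
  have : ∀ s : Finset ℤ, (∑ k ∈ s, ((r : ℂ) ^ k.natAbs) • EL p k) ∈ compactOperator (RingHom.id ℂ) (LP p) (LP p) := by
    intro s
    apply Submodule.sum_mem
    intro k _
    apply Submodule.smul_mem
    exact EL_compact k
  exact this s

theorem TH_compact {r : ℝ} (h0 : 0 ≤ r) (h1 : r < 1) : IsCompactOperator (TH p h0 h1) := by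
  have h2 : IsCompactOperator ((TL p r).comp (HardySp p).subtypeL) :=
    (TL_compact h0 h1).comp_clm (HardySp p).subtypeL
  exact h2.codRestrict (fun f => TL_mem h0 h1 f.2) Hp_closed

theorem cl_norm_le_of {hp : p ≠ ∞} {ρ : ℝ} (hρ : 0 ≤ ρ) {f g : C(TT, ℂ)}
    (h : ‖cl p f‖ ≤ ρ * ‖cl p g‖) : ∫ t, ‖f t‖ ^ p.toReal ∂mu ≤ ρ ^ p.toReal * ∫ t, ‖g t‖ ^ p.toReal ∂mu := by
  have hq : 0 < p.toReal := by linarith [one_le_toReal (p := p) hp]
  rw [← norm_cl_rpow hp, ← norm_cl_rpow hp, ← Real.mul_rpow hρ (norm_nonneg _)]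
  gcongr

/-- `‖I - T_{r²}‖ ≤ ‖I - K₀‖` on polynomials -/
theorem TL_pol_bound (hp : p ≠ ∞) {r : ℝ} (h0 : 0 ≤ r) (h1 : r < 1) (n : ℕ) (c : ℕ → ℂ) :
    ‖cl p (pol n c) - TL p (r ^ 2) (cl p (pol n c))‖ ≤ ‖1 - K0 p‖ * ‖cl p (pol n c)‖ := by
  have hq : 0 < p.toReal := by linarith [one_le_toReal (p := p) hp]
  have h02 : 0 ≤ r ^ 2 := by positivity
  have h12 : r ^ 2 < 1 := by nlinarith
  set ρ := ‖1 - K0 p‖ with hρ
  have hρ0 : 0 ≤ ρ := ContinuousLinearMap.opNorm_nonneg _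
  have H : ∀ h : C(TT, ℂ), (∀ j : ℕ, j ≠ 0 → fourierCoeff h (-(j : ℤ)) = 0) →
      ∫ t, ‖h t - fourierCoeff h 0‖ ^ p.toReal ∂mu ≤ ρ ^ p.toReal * ∫ t, ‖h t‖ ^ p.toReal ∂mu := by
    intro h hh
    have hmem : cl p h ∈ HardySp p := by
      intro k hk
      rw [fourierCoeff_congr_ae (cl_ae h)]
      obtain ⟨j, hj⟩ := Int.eq_ofNat_of_zero_le (show 0 ≤ -k by omega)
      have : k = -(j : ℤ) := by omega
      rw [this]
      exact hh j (by omega)
    have h2 := (1 - K0 p).le_opNorm ⟨cl p h, hmem⟩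
    have h3 : ‖(1 - K0 p) ⟨cl p h, hmem⟩‖ = ‖cl p (h - fourierCoeff h 0 • fourier 0)‖ := by
      rw [cl_sub, cl_smul]
      show ‖(((1 - K0 p) ⟨cl p h, hmem⟩ : HardySp p) : LP p)‖ = _
      congr 1
      show cl p h - fourierCoeff (cl p h) 0 • cl p (fourier 0) = _
      rw [fourierCoeff_congr_ae (cl_ae h)]
    rw [h3] at h2
    have h4 := cl_norm_le_of (hp := hp) hρ0 h2
    refine le_trans (le_of_eq ?_) h4
    apply integral_congr_ae
    filter_upwards with t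
    simp
  have hkey := key hp ρ H n c h0 h1
  apply rpow_le_imp (norm_nonneg _) (by positivity) hq
  rw [Real.mul_rpow hρ0 (norm_nonneg _), norm_cl_rpow hp (pol n c)]
  refine le_trans (le_of_eq ?_) hkey
  have h5 : cl p (pol n c) - TL p (r ^ 2) (cl p (pol n c)) = cl p (pol n c - pol n (fun k => c k * (r : ℂ) ^ (2 * k))) := by
    rw [cl_sub]
    congr 1
    unfold pol
    rw [cl_sum, map_sum, cl_sum]
    apply Finset.sum_congr rfl
    intro k _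
    rw [cl_smul, map_smul, TL_fourier h02 h12, smul_smul, cl_smul]
    congr 2
    push_cast
    rw [Int.natAbs_natCast, ← pow_mul]
  rw [h5, norm_cl_rpow hp]
  rfl

theorem TL_bound (hp : p ≠ ∞) {r : ℝ} (h0 : 0 ≤ r) (h1 : r < 1) (f : LP p) (hf : f ∈ HardySp p) :
    ‖f - TL p (r ^ 2) f‖ ≤ ‖1 - K0 p‖ * ‖f‖ := by
  apply le_of_forall_pos_le_add
  intro ε hε
  have hK : 0 < ‖1 - TL p (r ^ 2)‖ + ‖1 - K0 p‖ + 1 := by positivity
  obtain ⟨n, c, hc⟩ := pol_dense hp f hf (ε / (‖1 - TL p (r ^ 2)‖ + ‖1 - K0 p‖ + 1)) (by positivity)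
  have h2 : f - TL p (r ^ 2) f = (cl p (pol n c) - TL p (r ^ 2) (cl p (pol n c))) + (1 - TL p (r ^ 2)) (f - cl p (pol n c)) := by
    show _ = _ + ((f - cl p (pol n c)) - TL p (r ^ 2) (f - cl p (pol n c)))
    rw [map_sub]
    abel
  rw [h2]
  have h3 := norm_add_le (cl p (pol n c) - TL p (r ^ 2) (cl p (pol n c))) ((1 - TL p (r ^ 2)) (f - cl p (pol n c)))
  have h4 := TL_pol_bound hp h0 h1 n c
  have h5 := (1 - TL p (r ^ 2)).le_opNorm (f - cl p (pol n c))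
  have h6 : ‖cl p (pol n c)‖ ≤ ‖f‖ + ‖f - cl p (pol n c)‖ := by
    have : cl p (pol n c) = f - (f - cl p (pol n c)) := by abel
    nth_rewrite 1 [this]
    exact norm_sub_le _ _
  rw [lt_div_iff₀ hK] at hc
  have h7 : ‖1 - K0 p‖ * ‖cl p (pol n c)‖ ≤ ‖1 - K0 p‖ * (‖f‖ + ‖f - cl p (pol n c)‖) := by gcongr
  nlinarith [norm_nonneg (f - cl p (pol n c))]

/-- `‖I - T_{r²}‖ ≤ ‖I - K₀‖` on `H^p` -/
theorem TH_bound (hp : p ≠ ∞) {r : ℝ} (h0 : 0 ≤ r) (h1 : r < 1) (h02 : 0 ≤ r ^ 2) (h12 : r ^ 2 < 1) :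
    ‖1 - TH p h02 h12‖ ≤ ‖1 - K0 p‖ := by
  apply ContinuousLinearMap.opNorm_le_bound _ (ContinuousLinearMap.opNorm_nonneg _)
  intro f
  exact TL_bound hp h0 h1 (f : LP p) f.2

end ops

end Pool.Agent.Helper192.Hp
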