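import Mathlib
import Pool.Agent.Helper192.Hardy.A
import Pool.Agent.Helper192.Hardy.B
import Pool.Agent.Helper192.Hardy.C
import Pool.Agent.Helper192.Hardy.D

set_option autoImplicit false

open MeasureTheory AddCircle Filter Topology
open scoped ENNReal

namespace Pool.Agent.Helper192.Hp

section lower

variable {p : ℝ≥0∞} [hp1 : Fact (1 ≤ p)]

/-- `u(z) ↦ u(z^N)` on analytic polynomials (continuous functions) -/
noncomputable def polN (N n : ℕ) (c : ℕ → ℂ) : C(TT, ℂ) := ∑ k ∈ Finset.range n, c k • fourier ((k * N : ℕ) : ℤ)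

theorem polN_apply (N n : ℕ) (c : ℕ → ℂ) (t : TT) : polN N n c t = pol n c ((N : ℤ) • t) := by
  rw [pol_apply]
  simp only [polN, ContinuousMap.coe_sum, Finset.sum_apply, ContinuousMap.coe_smul, Pi.smul_apply, smul_eq_mul]
  apply Finset.sum_congr rfl
  intro k _
  congr 1
  rw [fourier_apply, fourier_apply, smul_smul]
  congr 3

theorem norm_polN (hp : p ≠ ∞) {N : ℕ} (hN : 0 < N) (n : ℕ) (c : ℕ → ℂ) : ‖cl p (polN N n c)‖ = ‖cl p (pol n c)‖ := by
  have hq : 0 < p.toReal := by linarith [one_le_toReal (p := p) hp]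
  have h : ‖cl p (polN N n c)‖ ^ p.toReal = ‖cl p (pol n c)‖ ^ p.toReal := by
    rw [norm_cl_rpow hp, norm_cl_rpow hp]
    have hN' : (N : ℤ) ≠ 0 := by omega
    have hm := MeasureTheory.Measure.measurePreserving_zsmul mu hN'
    simp only [polN_apply]
    have h2 := integral_map (μ := mu) (φ := fun t : TT => (N : ℤ) • t) (f := fun t => ‖pol n c t‖ ^ p.toReal)
      hm.measurable.aemeasurable (by
        rw [hm.map_eq]
        exact (rpow_cont (map_continuous _) hp).aestronglyMeasurable)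
    rw [hm.map_eq] at h2
    exact h2.symm
  exact le_antisymm (rpow_le_imp (norm_nonneg _) (norm_nonneg _) hq h.le)
    (rpow_le_imp (norm_nonneg _) (norm_nonneg _) hq h.ge)

/-- averages of distinct characters tend to zero -/
theorem avg_small (hp : p ≠ ∞) (m : ℕ → ℤ) (hm : Function.Injective m) :
    Tendsto (fun M : ℕ => ‖(1 / (M : ℂ)) • ∑ j ∈ Finset.range M, cl p (fourier (m j))‖) atTop (𝓝 0) := by
  -- exponent max(p,2)
  obtain ⟨P, hPdef⟩ : ∃ P : ℝ≥0∞, P = max p 2 := ⟨_, rfl⟩
  have hPtop : P ≠ ∞ := by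
    rw [hPdef]
    exact (max_lt (lt_top_iff_ne_top.mpr hp) (by norm_num)).ne
  have hpP : p ≤ P := by rw [hPdef]; exact le_max_left _ _
  have h2P : 2 ≤ P := by rw [hPdef]; exact le_max_right _ _
  have : Fact (1 ≤ P) := ⟨hp1.out.trans hpP⟩
  have h2r : 2 ≤ P.toReal := by
    have := ENNReal.toReal_mono hPtop h2P
    simpa using this
  have hPr : 0 < P.toReal := by linarith
  let F : ℕ → C(TT, ℂ) := fun M => (1 / (M : ℂ)) • ∑ j ∈ Finset.range M, fourier (m j)
  have hF : ∀ M : ℕ, (1 / (M : ℂ)) • ∑ j ∈ Finset.range M, cl p (fourier (m j)) = cl p (F M) := by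
    intro M
    simp only [F]
    rw [cl_smul, cl_sum]
  simp only [hF]
  have hmono : ∀ M, ‖cl p (F M)‖ ≤ ‖cl P (F M)‖ := by
    intro M
    rw [Lp.norm_def, Lp.norm_def, eLpNorm_congr_ae (cl_ae (p := p) (F M)), eLpNorm_congr_ae (cl_ae (p := P) (F M))]
    apply ENNReal.toReal_mono
    · have := Lp.memLp (cl P (F M))
      have h3 : MemLp (F M) P mu := (memLp_congr_ae (cl_ae _)).mp this
      exact h3.2.ne
    · exact eLpNorm_le_eLpNorm_of_exponent_le hpP (map_continuous (F M)).aestronglyMeasurable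
  have hbd : ∀ M : ℕ, ∀ t, ‖F M t‖ ≤ 1 := by
    intro M t
    simp only [F, ContinuousMap.coe_smul, ContinuousMap.coe_sum, Pi.smul_apply, Finset.sum_apply, smul_eq_mul]
    rw [norm_mul, norm_div, norm_one, Complex.norm_natCast]
    have h3 : ‖∑ j ∈ Finset.range M, (fourier (m j) t : ℂ)‖ ≤ M := by
      refine (norm_sum_le _ _).trans (le_of_eq ?_)
      have : ∀ j ∈ Finset.range M, ‖(fourier (m j) t : ℂ)‖ = 1 := by
        intro j _
        rw [fourier_apply, Circle.norm_coe]
      rw [Finset.sum_congr rfl this]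
      simp
    by_cases hM : M = 0
    · subst hM
      simp
    · have hM' : (0 : ℝ) < M := by exact_mod_cast Nat.pos_of_ne_zero hM
      rw [one_div_mul_eq_div, div_le_one hM']
      exact h3
  have h2norm : ∀ M : ℕ, 0 < M → ‖cl 2 (F M)‖ ^ 2 = 1 / M := by
    intro M hM
    have h3 : cl 2 (F M) = (1 / (M : ℂ)) • ∑ j ∈ Finset.range M, (fourierLp 2 (m j) : LP 2) := by
      simp only [F]
      rw [cl_smul, cl_sum]
      rfl
    have horth : Orthonormal ℂ (fun j : ℕ => (fourierLp 2 (m j) : LP 2)) := orthonormal_fourier.comp m hm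
    have h4 : ‖∑ j ∈ Finset.range M, (fourierLp 2 (m j) : LP 2)‖ ^ 2 = M := by
      have h5 := horth.inner_sum (fun _ => (1 : ℂ)) (fun _ => (1 : ℂ)) (Finset.range M)
      simp only [one_smul, map_one, mul_one, Finset.sum_const, Finset.card_range, nsmul_eq_mul] at h5
      rw [inner_self_eq_norm_sq_to_K] at h5
      have h6 : ((‖∑ j ∈ Finset.range M, (fourierLp 2 (m j) : LP 2)‖ : ℝ) : ℂ) ^ 2 = (M : ℂ) := h5
      exact_mod_cast h6
    rw [h3, norm_smul, mul_pow, h4, norm_div, norm_one, Complex.norm_natCast]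
    have hM' : (M : ℝ) ≠ 0 := by exact_mod_cast hM.ne'
    field_simp
  have hPn : ∀ M : ℕ, 0 < M → ‖cl P (F M)‖ ≤ (1 / (M : ℝ)) ^ (1 / P.toReal) := by
    intro M hM
    have h3 : ‖cl P (F M)‖ ^ P.toReal ≤ 1 / M := by
      rw [norm_cl_rpow hPtop, ← h2norm M hM]
      have h4 := norm_cl_rpow (p := 2) (by norm_num) (F M)
      have h5 : ‖cl 2 (F M)‖ ^ 2 = ∫ t, ‖F M t‖ ^ (2 : ℝ) ∂mu := by
        simp only [ENNReal.toReal_ofNat] at h4
        rw [← h4]
        norm_cast
      rw [h5]
      apply integral_mono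
      · exact cont_integrable_real (rpow_cont (map_continuous _) hPtop)
      · have := rpow_cont (p := 2) (map_continuous (F M)) (by norm_num)
        simp only [ENNReal.toReal_ofNat] at this
        exact cont_integrable_real this
      · intro t
        exact Real.rpow_le_rpow_of_exponent_ge' (norm_nonneg _) (hbd M t) (by norm_num) h2r
    have h6 := Real.rpow_le_rpow (by positivity) h3 (show 0 ≤ 1 / P.toReal by positivity)
    rwa [← Real.rpow_mul (norm_nonneg _), mul_one_div_cancel hPr.ne', Real.rpow_one] at h6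
  have hlim : Tendsto (fun M : ℕ => (1 / (M : ℝ)) ^ (1 / P.toReal)) atTop (𝓝 0) := by
    have h3 := tendsto_one_div_atTop_nhds_zero_nat (𝕜 := ℝ)
    have h4 := h3.rpow_const (p := 1 / P.toReal) (Or.inr (by positivity))
    rwa [Real.zero_rpow (by positivity)] at h4
  refine squeeze_zero' (Eventually.of_forall (fun _ => norm_nonneg _)) ?_ hlim
  filter_upwards [eventually_gt_atTop 0] with M hM
  exact (hmono M).trans (hPn M hM)

end lower

end Pool.Agent.Helper192.Hp
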