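import Mathlib
import Pool.Agent.Helper192.Hardy.A
import Pool.Agent.Helper192.Hardy.B
import Pool.Agent.Helper192.Hardy.C
import Pool.Agent.Helper192.Hardy.D
import Pool.Agent.Helper192.Hardy.E

set_option autoImplicit false

open MeasureTheory AddCircle Filter Topology
open scoped ENNReal

namespace Pool.Agent.Helper192.Hp

section lower2

variable {p : ℝ≥0∞} [hp1 : Fact (1 ≤ p)]

/-- the monomial `z^k` in `H^p` -/
noncomputable def eH (p : ℝ≥0∞) [Fact (1 ≤ p)] (k : ℕ) : HardySp p :=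
  ⟨cl p (fourier (k : ℤ)), by
    intro j hj
    rw [fc_fourier, if_neg]
    omega⟩

theorem eH_coe (k : ℕ) : ((eH p k : HardySp p) : LP p) = cl p (fourier (k : ℤ)) := rfl

/-- the polynomial `Σ c_k z^{kN}` in `H^p` -/
noncomputable def gH (p : ℝ≥0∞) [Fact (1 ≤ p)] (N n : ℕ) (c : ℕ → ℂ) : HardySp p :=
  ∑ k ∈ Finset.range n, c k • eH p (k * N)

theorem gH_coe (N n : ℕ) (c : ℕ → ℂ) : ((gH p N n c : HardySp p) : LP p) = cl p (polN N n c) := by
  unfold gH polN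
  rw [cl_sum]
  simp only [cl_smul]
  rw [Submodule.coe_sum]
  rfl

theorem gH_norm (hp : p ≠ ∞) {N : ℕ} (hN : 0 < N) (n : ℕ) (c : ℕ → ℂ) : ‖gH p N n c‖ = ‖cl p (pol n c)‖ := by
  show ‖((gH p N n c : HardySp p) : LP p)‖ = _
  rw [gH_coe, norm_polN hp hN]

theorem avg_eH (hp : p ≠ ∞) (m : ℕ → ℕ) (hm : Function.Injective m) :
    Tendsto (fun M : ℕ => (1 / (M : ℂ)) • ∑ j ∈ Finset.range M, eH p (m j)) atTop (𝓝 0) := by
  rw [tendsto_zero_iff_norm_tendsto_zero]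
  have h := avg_small (p := p) hp (fun j => (m j : ℤ)) (fun a b h => hm (by
    have h' : ((m a : ℕ) : ℤ) = ((m b : ℕ) : ℤ) := h
    exact_mod_cast h'))
  refine h.congr ?_
  intro M
  show _ = ‖(((1 / (M : ℂ)) • ∑ j ∈ Finset.range M, eH p (m j) : HardySp p) : LP p)‖
  rw [Submodule.coe_smul, Submodule.coe_sum]
  rfl

theorem compact_far (hp : p ≠ ∞) (T : HardySp p →L[ℂ] HardySp p) (hT : IsCompactOperator T) (n : ℕ) (c : ℕ → ℂ)
    (hc0 : c 0 = 0) (ε : ℝ) (hε : 0 < ε) (N0 : ℕ) : ∃ N, N0 ≤ N ∧ 0 < N ∧ ‖T (gH p N n c)‖ < ε := by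
  by_contra hcon
  push Not at hcon
  let a : ℕ → HardySp p := fun j => gH p (N0 + 1 + j) n c
  have ha : ∀ j, ε ≤ ‖T (a j)‖ := fun j => hcon _ (by omega) (by omega)
  have han : ∀ j, ‖a j‖ = ‖cl p (pol n c)‖ := fun j => gH_norm hp (by omega) n c
  have hcomp := hT.isCompact_closure_image_closedBall ‖cl p (pol n c)‖
  have hmem : ∀ j, T (a j) ∈ closure (T '' Metric.closedBall 0 ‖cl p (pol n c)‖) := by
    intro j
    apply subset_closure
    refine ⟨a j, ?_, rfl⟩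
    rw [mem_closedBall_zero_iff, han]
  obtain ⟨y, -, φ, hφ, hy⟩ := hcomp.tendsto_subseq hmem
  have hyε : ε ≤ ‖y‖ := ge_of_tendsto hy.norm (Eventually.of_forall (fun j => ha (φ j)))
  have hces := hy.cesaro_smul
  have hzero : Tendsto (fun M : ℕ => (1 / (M : ℂ)) • ∑ j ∈ Finset.range M, a (φ j)) atTop (𝓝 0) := by
    have h1 : ∀ M : ℕ, (1 / (M : ℂ)) • ∑ j ∈ Finset.range M, a (φ j) =
        ∑ k ∈ Finset.range n, c k • ((1 / (M : ℂ)) • ∑ j ∈ Finset.range M, eH p (k * (N0 + 1 + φ j))) := by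
      intro M
      simp only [a, gH]
      rw [Finset.sum_comm, Finset.smul_sum]
      apply Finset.sum_congr rfl
      intro k _
      rw [← Finset.smul_sum, smul_comm]
    simp only [h1]
    have h2 : ∀ k ∈ Finset.range n, Tendsto (fun M : ℕ => c k • ((1 / (M : ℂ)) • ∑ j ∈ Finset.range M, eH p (k * (N0 + 1 + φ j)))) atTop (𝓝 0) := by
      intro k _
      by_cases hk : k = 0
      · subst hk
        rw [hc0]
        simp
      · have h3 := (avg_eH hp (fun j => k * (N0 + 1 + φ j)) (by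
          intro i j hij
          have h4 : N0 + 1 + φ i = N0 + 1 + φ j := Nat.eq_of_mul_eq_mul_left (Nat.pos_of_ne_zero hk) hij
          exact hφ.injective (by omega))).const_smul (c k)
        rwa [smul_zero] at h3
    have h4 := tendsto_finsetSum (Finset.range n) h2
    rwa [Finset.sum_const_zero] at h4
  have hTz := (T.continuous.tendsto 0).comp hzero
  rw [map_zero] at hTz
  have heq : (⇑T ∘ fun M : ℕ => (1 / (M : ℂ)) • ∑ j ∈ Finset.range M, a (φ j)) =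
      (fun M : ℕ => ((M : ℝ)⁻¹) • ∑ i ∈ Finset.range M, ((⇑T ∘ a) ∘ φ) i) := by
    ext1 M
    show T ((1 / (M : ℂ)) • ∑ j ∈ Finset.range M, a (φ j)) = _
    rw [map_smul, map_sum]
    rw [one_div, RCLike.real_smul_eq_coe_smul (K := ℂ)]
    congr 1
    simp
  rw [heq] at hTz
  have : y = 0 := tendsto_nhds_unique hces hTz
  rw [this, norm_zero] at hyε
  linarith

theorem K0_gH (n : ℕ) (c : ℕ → ℂ) : K0 p (gH p 1 (n + 1) c) = c 0 • oneH p := by
  rw [K0_apply]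
  congr 1
  rw [gH_coe]
  unfold polN
  rw [cl_sum, ← coeffL_apply, map_sum]
  rw [Finset.sum_eq_single 0]
  · rw [cl_smul, map_smul, coeffL_apply, fc_fourier]
    simp
  · intro k _ hk
    rw [cl_smul, map_smul, coeffL_apply, fc_fourier, if_neg, smul_zero]
    push_cast
    omega
  · intro h
    exact absurd (Finset.mem_range.mpr (Nat.succ_pos n)) h

theorem eH_zero : eH p 0 = oneH p := rfl

theorem gH_split (N n : ℕ) (c : ℕ → ℂ) : gH p N (n + 1) c = c 0 • oneH p + gH p N (n + 1) (fun k => if k = 0 then 0 else c k) := by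
  unfold gH
  rw [Finset.sum_range_succ', Finset.sum_range_succ']
  simp only [Nat.add_eq_zero_iff, one_ne_zero, and_false, if_false, if_true, zero_smul, add_zero, zero_mul]
  rw [eH_zero, add_comm]

theorem lower_pol (hp : p ≠ ∞) (s : ℝ) (T : ℕ → (HardySp p →L[ℂ] HardySp p)) (hT : ∀ j, IsCompactOperator (T j))
    (hstr : ∀ x, Tendsto (fun j => T j x) atTop (𝓝 x)) (hs : ∀ j, ‖ContinuousLinearMap.id ℂ (HardySp p) - T j‖ ≤ s)
    (n : ℕ) (c : ℕ → ℂ) : ‖gH p 1 (n + 1) c - K0 p (gH p 1 (n + 1) c)‖ ≤ s * ‖gH p 1 (n + 1) c‖ := by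
  set c' : ℕ → ℂ := fun k => if k = 0 then 0 else c k with hc'
  have hsplit : ∀ N, gH p N (n + 1) c = c 0 • oneH p + gH p N (n + 1) c' := fun N => gH_split N n c
  have h1 : gH p 1 (n + 1) c - K0 p (gH p 1 (n + 1) c) = gH p 1 (n + 1) c' := by
    rw [K0_gH, hsplit 1]
    abel
  rw [h1]
  have h2 : ∀ j, ∀ ε : ℝ, 0 < ε → ‖gH p 1 (n + 1) c'‖ ≤ s * ‖gH p 1 (n + 1) c‖ + ‖c 0 • oneH p - T j (c 0 • oneH p)‖ + ε := by
    intro j ε hε
    obtain ⟨N, -, hN, hTN⟩ := compact_far hp (T j) (hT j) (n + 1) c' (by simp [hc']) ε hε 0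
    have h3 : gH p N (n + 1) c' = (ContinuousLinearMap.id ℂ (HardySp p) - T j) (gH p N (n + 1) c) - (c 0 • oneH p - T j (c 0 • oneH p)) + T j (gH p N (n + 1) c') := by
      show _ = (gH p N (n + 1) c - T j (gH p N (n + 1) c)) - _ + _
      rw [hsplit N, map_add]
      abel
    have h4 : ‖gH p 1 (n + 1) c'‖ = ‖gH p N (n + 1) c'‖ := by
      rw [gH_norm hp one_pos, gH_norm hp hN]
    have h5 : ‖gH p 1 (n + 1) c‖ = ‖gH p N (n + 1) c‖ := by
      rw [gH_norm hp one_pos, gH_norm hp hN]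
    rw [h4, h3]
    have h6 := norm_add_le ((ContinuousLinearMap.id ℂ (HardySp p) - T j) (gH p N (n + 1) c) - (c 0 • oneH p - T j (c 0 • oneH p))) (T j (gH p N (n + 1) c'))
    have h7 := norm_sub_le ((ContinuousLinearMap.id ℂ (HardySp p) - T j) (gH p N (n + 1) c)) (c 0 • oneH p - T j (c 0 • oneH p))
    have h8 := (ContinuousLinearMap.id ℂ (HardySp p) - T j).le_opNorm (gH p N (n + 1) c)
    have h9 : ‖ContinuousLinearMap.id ℂ (HardySp p) - T j‖ * ‖gH p N (n + 1) c‖ ≤ s * ‖gH p N (n + 1) c‖ := by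
      have := hs j
      gcongr
    rw [h5]
    linarith
  have h3 : ∀ j, ‖gH p 1 (n + 1) c'‖ ≤ s * ‖gH p 1 (n + 1) c‖ + ‖c 0 • oneH p - T j (c 0 • oneH p)‖ := by
    intro j
    apply le_of_forall_pos_le_add
    intro ε hε
    exact h2 j ε hε
  have h4 : Tendsto (fun j => s * ‖gH p 1 (n + 1) c‖ + ‖c 0 • oneH p - T j (c 0 • oneH p)‖) atTop (𝓝 (s * ‖gH p 1 (n + 1) c‖ + ‖c 0 • oneH p - c 0 • oneH p‖)) :=
    ((hstr (c 0 • oneH p)).const_sub _).norm.const_add _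
  rw [sub_self, norm_zero, add_zero] at h4
  exact ge_of_tendsto h4 (Eventually.of_forall h3)

theorem gH_dense (hp : p ≠ ∞) (f : HardySp p) (ε : ℝ) (hε : 0 < ε) : ∃ n c, ‖f - gH p 1 (n + 1) c‖ < ε := by
  obtain ⟨n, c, hc⟩ := pol_dense hp (f : LP p) f.2 ε hε
  refine ⟨n, fun k => if k < n then c k else 0, ?_⟩
  show ‖(((f - gH p 1 (n + 1) (fun k => if k < n then c k else 0)) : HardySp p) : LP p)‖ < ε
  rw [Submodule.coe_sub, gH_coe]
  have : polN 1 (n + 1) (fun k => if k < n then c k else 0) = pol n c := by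
    unfold polN pol
    rw [Finset.sum_range_succ]
    simp only [lt_irrefl, if_false, zero_smul, add_zero, mul_one]
    apply Finset.sum_congr rfl
    intro k hk
    rw [if_pos (Finset.mem_range.mp hk)]
  rw [this]
  exact hc

/-- if an inequality `‖A f‖ ≤ s ‖f‖` holds on polynomials it holds on `H^p` -/
theorem opNorm_le_of_pol (hp : p ≠ ∞) (A : HardySp p →L[ℂ] HardySp p) (s : ℝ) (hs : 0 ≤ s)
    (h : ∀ n c, ‖A (gH p 1 (n + 1) c)‖ ≤ s * ‖gH p 1 (n + 1) c‖) : ‖A‖ ≤ s := by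
  apply ContinuousLinearMap.opNorm_le_bound _ hs
  intro f
  apply le_of_forall_pos_le_add
  intro ε hε
  have hA : 0 ≤ ‖A‖ := ContinuousLinearMap.opNorm_nonneg _
  have hK : 0 < ‖A‖ + s + 1 := by positivity
  obtain ⟨n, c, hc⟩ := gH_dense hp f (ε / (‖A‖ + s + 1)) (by positivity)
  have h1 := h n c
  have h2 : A f = A (gH p 1 (n + 1) c) + A (f - gH p 1 (n + 1) c) := by
    rw [← map_add]
    congr 1
    abel
  rw [h2]
  have h3 := norm_add_le (A (gH p 1 (n + 1) c)) (A (f - gH p 1 (n + 1) c))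
  have h4 := A.le_opNorm (f - gH p 1 (n + 1) c)
  have h5 : ‖gH p 1 (n + 1) c‖ ≤ ‖f‖ + ‖f - gH p 1 (n + 1) c‖ := by
    have : gH p 1 (n + 1) c = f - (f - gH p 1 (n + 1) c) := by abel
    nth_rewrite 1 [this]
    exact norm_sub_le _ _
  rw [lt_div_iff₀ hK] at hc
  have h6 : s * ‖gH p 1 (n + 1) c‖ ≤ s * (‖f‖ + ‖f - gH p 1 (n + 1) c‖) := by gcongr
  nlinarith [norm_nonneg (f - gH p 1 (n + 1) c)]

end lower2

end Pool.Agent.Helper192.Hp
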