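import Mathlib
import Pool.Agent.Helper192.Hardy.A
import Pool.Agent.Helper192.Hardy.B
import Pool.Agent.Helper192.Hardy.C
import Pool.Agent.Helper192.Hardy.D
import Pool.Agent.Helper192.Hardy.E
import Pool.Agent.Helper192.Hardy.F

set_option autoImplicit false

open MeasureTheory AddCircle Filter Topology
open scoped ENNReal

namespace Pool.Agent.Helper192.Hp

/-- The set of all numbers `sup_n ‖I - T_n‖`, where `(T_n)` runs over the sequences of compact operators on `X`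
that converge strongly to the identity (and for which the supremum is finite). -/
def bcapValues (X : Type) [NormedAddCommGroup X] [NormedSpace ℂ X] : Set ℝ :=
  {s | ∃ T : ℕ → X →L[ℂ] X, (∀ n, IsCompactOperator (T n)) ∧
    (∀ x, Tendsto (fun n => T n x) atTop (𝓝 x)) ∧
    IsLUB (Set.range fun n => ‖ContinuousLinearMap.id ℂ X - T n‖) s}

/-- The bounded compact approximation constant `M(X)`. -/
noncomputable def bcapConst (X : Type) [NormedAddCommGroup X] [NormedSpace ℂ X] : ℝ := sInf (bcapValues X)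

section

variable {p : ℝ≥0∞} [hp1 : Fact (1 ≤ p)]

/-- radii tending to one -/
noncomputable def rad (n : ℕ) : ℝ := 1 - 1 / ((n : ℝ) + 1)

theorem rad_nonneg (n : ℕ) : 0 ≤ rad n := by
  unfold rad
  have : 1 / ((n : ℝ) + 1) ≤ 1 := by
    rw [div_le_one (by positivity)]
    have : (0 : ℝ) ≤ n := Nat.cast_nonneg n
    linarith
  linarith

theorem rad_lt (n : ℕ) : rad n < 1 := by
  unfold rad
  have : 0 < 1 / ((n : ℝ) + 1) := by positivity
  linarith

theorem rad_tendsto : Tendsto rad atTop (𝓝 1) := by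
  have := (tendsto_one_div_add_atTop_nhds_zero_nat (𝕜 := ℝ)).const_sub 1
  rw [sub_zero] at this
  exact this

theorem rad_sq_nonneg (n : ℕ) : 0 ≤ rad n ^ 2 := by positivity

theorem rad_sq_lt (n : ℕ) : rad n ^ 2 < 1 := by
  have := rad_nonneg n
  have := rad_lt n
  nlinarith

/-- the approximating sequence -/
noncomputable def Tseq (p : ℝ≥0∞) [Fact (1 ≤ p)] (n : ℕ) : HardySp p →L[ℂ] HardySp p :=
  TH p (rad_sq_nonneg n) (rad_sq_lt n)

theorem Tseq_compact (n : ℕ) : IsCompactOperator (Tseq p n) := TH_compact _ _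

theorem Tseq_bound (hp : p ≠ ∞) (n : ℕ) : ‖ContinuousLinearMap.id ℂ (HardySp p) - Tseq p n‖ ≤ ‖1 - K0 p‖ :=
  TH_bound hp (rad_nonneg n) (rad_lt n) (rad_sq_nonneg n) (rad_sq_lt n)

theorem Tseq_tendsto (hp : p ≠ ∞) (f : HardySp p) : Tendsto (fun n => Tseq p n f) atTop (𝓝 f) := by
  rw [tendsto_subtype_rng]
  have h : Tendsto (fun n => rad n ^ 2) atTop (𝓝 1) := by
    have := rad_tendsto.pow 2
    rwa [one_pow] at this
  exact TL_tendsto hp (f : LP p) rad_sq_nonneg rad_sq_lt h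

theorem bcap_mem_le (hp : p ≠ ∞) : ∃ s ∈ bcapValues (HardySp p), s ≤ ‖1 - K0 p‖ := by
  have hbdd : BddAbove (Set.range fun n => ‖ContinuousLinearMap.id ℂ (HardySp p) - Tseq p n‖) := by
    refine ⟨‖1 - K0 p‖, ?_⟩
    rintro _ ⟨n, rfl⟩
    exact Tseq_bound hp n
  refine ⟨sSup (Set.range fun n => ‖ContinuousLinearMap.id ℂ (HardySp p) - Tseq p n‖), ?_, ?_⟩
  · exact ⟨Tseq p, Tseq_compact, Tseq_tendsto hp, isLUB_csSup (Set.range_nonempty _) hbdd⟩
  · apply csSup_le (Set.range_nonempty _)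
    rintro _ ⟨n, rfl⟩
    exact Tseq_bound hp n

theorem bcap_lower (hp : p ≠ ∞) (s : ℝ) (hs : s ∈ bcapValues (HardySp p)) : ‖1 - K0 p‖ ≤ s := by
  obtain ⟨T, hT, hstr, hlub⟩ := hs
  have hle : ∀ j, ‖ContinuousLinearMap.id ℂ (HardySp p) - T j‖ ≤ s := fun j => hlub.1 ⟨j, rfl⟩
  have hs0 : 0 ≤ s := (ContinuousLinearMap.opNorm_nonneg _).trans (hle 0)
  exact opNorm_le_of_pol hp _ s hs0 (fun n c => lower_pol hp s T hT hstr hle n c)

theorem bcapConst_eq (hp : p ≠ ∞) : bcapConst (HardySp p) = ‖1 - K0 p‖ := by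
  obtain ⟨s, hs, hsle⟩ := bcap_mem_le (p := p) hp
  have hbdd : BddBelow (bcapValues (HardySp p)) := ⟨‖1 - K0 p‖, fun t ht => bcap_lower hp t ht⟩
  apply le_antisymm
  · exact (csInf_le hbdd hs).trans hsle
  · exact le_csInf ⟨s, hs⟩ (fun t ht => bcap_lower hp t ht)

end

end Pool.Agent.Helper192.Hp
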