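import Mathlib
import Pool.Agent.Helper192.Hardy.A
import Pool.Agent.Helper192.Hardy.B
import Pool.Agent.Helper192.Hardy.C
import Pool.Agent.Helper192.Hardy.D
import Pool.Agent.Helper192.Hardy.E
import Pool.Agent.Helper192.Hardy.F

set_option autoImplicit false

open MeasureTheory AddCircle Filter Topology
open scoped ENNReal

namespace Pool.Agent.Helper192.Hp

section explicit

variable {p : ℝ≥0∞} [hp1 : Fact (1 ≤ p)]

/-- value of an analytic polynomial -/
noncomputable def polF (n : ℕ) (c : ℕ → ℂ) (z : ℂ) : ℂ := ∑ k ∈ Finset.range n, c k * z ^ k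

theorem fourier_nat (k : ℕ) (t : TT) : (fourier (k : ℤ) t : ℂ) = (fourier 1 t) ^ k := by
  rw [fourier_apply, fourier_apply, one_smul, natCast_zsmul, toCircle_nsmul]
  push_cast
  rfl

theorem pol_eq (n : ℕ) (c : ℕ → ℂ) (t : TT) : pol n c t = polF n c (fourier 1 t) := by
  rw [pol_apply]
  unfold polF
  apply Finset.sum_congr rfl
  intro k _
  rw [fourier_nat]

theorem polF_diff (n : ℕ) (c : ℕ → ℂ) : Differentiable ℂ (polF n c) := by
  unfold polF
  fun_prop

theorem polF_zero (n : ℕ) (c : ℕ → ℂ) : polF (n + 1) c 0 = c 0 := by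
  unfold polF
  rw [Finset.sum_range_succ']
  simp

/-- mean value property on the circle -/
theorem mean_holo {F : ℂ → ℂ} (hF : DiffContOnCl ℂ F (Metric.ball 0 1)) :
    ∫ t, F (fourier 1 t) ∂mu = F 0 := by
  have h := holo_coeff hF (fun t => F (fourier 1 t)) (fun _ => rfl) 0
  unfold fourierCoeff at h
  simpa using h

theorem holo_cont {F : ℂ → ℂ} (hF : DiffContOnCl ℂ F (Metric.ball 0 1)) : Continuous (fun t : TT => F (fourier 1 t)) := by
  have h2 : ContinuousOn F (Metric.closedBall 0 1) := by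
    have := hF.2
    rwa [closure_ball _ one_ne_zero] at this
  apply h2.comp_continuous (map_continuous _)
  intro t
  rw [mem_closedBall_zero_iff, fourier_one_norm]

/-- `f - f(0)` for polynomials -/
theorem sub_K0_coe (n : ℕ) (c : ℕ → ℂ) :
    ((gH p 1 (n + 1) c - K0 p (gH p 1 (n + 1) c) : HardySp p) : LP p) = cl p (pol (n + 1) c - c 0 • fourier 0) := by
  rw [Submodule.coe_sub, gH_coe, K0_gH, cl_sub, cl_smul]
  congr 2
  unfold polN pol
  simp only [mul_one]

theorem gH_coe' (n : ℕ) (c : ℕ → ℂ) : ((gH p 1 (n + 1) c : HardySp p) : LP p) = cl p (pol (n + 1) c) := by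
  rw [gH_coe]
  unfold polN pol
  simp only [mul_one]

theorem upper_of_int (hp : p ≠ ∞) (s : ℝ) (hs : 0 ≤ s)
    (h : ∀ n c, ∫ t, ‖polF (n + 1) c (fourier 1 t) - c 0‖ ^ p.toReal ∂mu ≤
      s ^ p.toReal * ∫ t, ‖polF (n + 1) c (fourier 1 t)‖ ^ p.toReal ∂mu) : ‖1 - K0 p‖ ≤ s := by
  have hq : 0 < p.toReal := by linarith [one_le_toReal (p := p) hp]
  apply opNorm_le_of_pol hp _ s hs
  intro n c
  show ‖((gH p 1 (n + 1) c - K0 p (gH p 1 (n + 1) c) : HardySp p) : LP p)‖ ≤ s * ‖((gH p 1 (n + 1) c : HardySp p) : LP p)‖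
  rw [sub_K0_coe, gH_coe']
  apply rpow_le_imp (norm_nonneg _) (by positivity) hq
  rw [Real.mul_rpow hs (norm_nonneg _), norm_cl_rpow hp, norm_cl_rpow hp]
  refine le_trans (le_of_eq ?_) ((h n c).trans (le_of_eq ?_))
  · apply integral_congr_ae
    filter_upwards with t
    rw [← pol_eq]
    simp
  · congr 1
    apply integral_congr_ae
    filter_upwards with t
    rw [← pol_eq]

/-- membership of holomorphic functions -/
theorem holo_mem {F : ℂ → ℂ} (hF : DiffContOnCl ℂ F (Metric.ball 0 1)) :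
    cl p ⟨fun t => F (fourier 1 t), holo_cont hF⟩ ∈ HardySp p := by
  intro k hk
  rw [fourierCoeff_congr_ae (cl_ae _)]
  obtain ⟨j, hj⟩ := Int.eq_ofNat_of_zero_le (show 0 ≤ -k by omega)
  have hk' : k = -(j : ℤ) := by omega
  have h := holo_coeff hF (fun t => F (fourier 1 t)) (fun _ => rfl) j
  rw [if_neg (by omega)] at h
  rw [hk']
  exact h

theorem lower_of_int (hp : p ≠ ∞) (s : ℝ) (hs : 0 ≤ s) {F : ℂ → ℂ} (hF : DiffContOnCl ℂ F (Metric.ball 0 1))
    (hne : F 0 ≠ 0)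
    (h : s ^ p.toReal * ∫ t, ‖F (fourier 1 t)‖ ^ p.toReal ∂mu ≤ ∫ t, ‖F (fourier 1 t) - F 0‖ ^ p.toReal ∂mu) :
    s ≤ ‖1 - K0 p‖ := by
  have hq : 0 < p.toReal := by linarith [one_le_toReal (p := p) hp]
  let f : C(TT, ℂ) := ⟨fun t => F (fourier 1 t), holo_cont hF⟩
  have hcoef : fourierCoeff (cl p f) 0 = F 0 := by
    rw [fourierCoeff_congr_ae (cl_ae _)]
    have := holo_coeff hF f (fun _ => rfl) 0
    simpa using this
  have h1 := (1 - K0 p).le_opNorm ⟨cl p f, holo_mem hF⟩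
  have h2 : ‖(1 - K0 p) ⟨cl p f, holo_mem hF⟩‖ = ‖cl p (f - F 0 • fourier 0)‖ := by
    rw [cl_sub, cl_smul]
    show ‖(((1 - K0 p) ⟨cl p f, holo_mem hF⟩ : HardySp p) : LP p)‖ = _
    congr 1
    show cl p f - fourierCoeff (cl p f) 0 • cl p (fourier 0) = _
    rw [hcoef]
  rw [h2] at h1
  have h3 : s * ‖cl p f‖ ≤ ‖cl p (f - F 0 • fourier 0)‖ := by
    apply rpow_le_imp (by positivity) (norm_nonneg _) hq
    rw [Real.mul_rpow hs (norm_nonneg _), norm_cl_rpow hp, norm_cl_rpow hp]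
    refine h.trans (le_of_eq ?_)
    apply integral_congr_ae
    filter_upwards with t
    simp [f]
  have h4 : 0 < ‖cl p f‖ := by
    have h5 := norm_fourierCoeff_le (cl p f) 0
    rw [hcoef] at h5
    exact (norm_pos_iff.mpr hne).trans_le h5
  have h5 : s * ‖cl p f‖ ≤ ‖1 - K0 p‖ * ‖cl p f‖ := h3.trans h1
  exact le_of_mul_le_mul_right h5 h4

/-- mean value property, real part -/
theorem mean_re {F : ℂ → ℂ} (hF : DiffContOnCl ℂ F (Metric.ball 0 1)) :
    ∫ t, (F (fourier 1 t)).re ∂mu = (F 0).re := by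
  have h1 : Integrable (fun t : TT => F (fourier 1 t)) mu := cont_integrable ⟨_, holo_cont hF⟩
  have h := integral_re (𝕜 := ℂ) h1
  rw [mean_holo hF] at h
  exact h

theorem int_cert (hp : p ≠ ∞) {F G : ℂ → ℂ} (hF : DiffContOnCl ℂ F (Metric.ball 0 1))
    (hG : DiffContOnCl ℂ G (Metric.ball 0 1)) (a : ℂ) (lam : ℝ)
    (h : ∀ z : ℂ, ‖z‖ = 1 → ‖F z - a‖ ^ p.toReal + (G z).re ≤ lam * ‖F z‖ ^ p.toReal) :
    ∫ t, ‖F (fourier 1 t) - a‖ ^ p.toReal ∂mu + (G 0).re ≤ lam * ∫ t, ‖F (fourier 1 t)‖ ^ p.toReal ∂mu := by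
  rw [← mean_re hG, ← integral_const_mul, ← integral_add]
  · apply integral_mono
    · apply Integrable.add
      · exact cont_integrable_real (rpow_cont ((holo_cont hF).sub continuous_const) hp)
      · exact cont_integrable_real (Complex.continuous_re.comp (holo_cont hG))
    · exact (cont_integrable_real (rpow_cont (holo_cont hF) hp)).const_mul _
    · intro t
      exact h _ (fourier_one_norm t)
  · exact cont_integrable_real (rpow_cont ((holo_cont hF).sub continuous_const) hp)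
  · exact cont_integrable_real (Complex.continuous_re.comp (holo_cont hG))

theorem int_cert_ge (hp : p ≠ ∞) {F G : ℂ → ℂ} (hF : DiffContOnCl ℂ F (Metric.ball 0 1))
    (hG : DiffContOnCl ℂ G (Metric.ball 0 1)) (a : ℂ) (lam : ℝ)
    (h : ∀ z : ℂ, ‖z‖ = 1 → lam * ‖F z‖ ^ p.toReal ≤ ‖F z - a‖ ^ p.toReal + (G z).re) :
    lam * ∫ t, ‖F (fourier 1 t)‖ ^ p.toReal ∂mu ≤ ∫ t, ‖F (fourier 1 t) - a‖ ^ p.toReal ∂mu + (G 0).re := by
  rw [← mean_re hG, ← integral_const_mul, ← integral_add]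
  · apply integral_mono
    · exact (cont_integrable_real (rpow_cont (holo_cont hF) hp)).const_mul _
    · apply Integrable.add
      · exact cont_integrable_real (rpow_cont ((holo_cont hF).sub continuous_const) hp)
      · exact cont_integrable_real (Complex.continuous_re.comp (holo_cont hG))
    · intro t
      exact h _ (fourier_one_norm t)
  · exact cont_integrable_real (rpow_cont ((holo_cont hF).sub continuous_const) hp)
  · exact cont_integrable_real (Complex.continuous_re.comp (holo_cont hG))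

theorem one_le_norm_sub : 1 ≤ ‖1 - K0 p‖ := by
  have h1 := (1 - K0 p).le_opNorm (eH p 1)
  have h2 : (1 - K0 p) (eH p 1) = eH p 1 := by
    show eH p 1 - K0 p (eH p 1) = _
    rw [K0_apply, eH_coe, fc_fourier]
    simp
  rw [h2] at h1
  have h3 : 0 < ‖eH p 1‖ := by
    have h4 := norm_fourierCoeff_le ((eH p 1 : HardySp p) : LP p) 1
    rw [eH_coe, fc_fourier] at h4
    simp only [Nat.cast_one, if_true, norm_one] at h4
    exact one_pos.trans_le h4
  by_contra hcon
  push Not at hcon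
  nlinarith

/-! ### `p = 2` -/

theorem norm_K0_two : ‖1 - K0 2‖ = 1 := by
  have h2r : (2 : ℝ≥0∞).toReal = 2 := by simp
  apply le_antisymm
  · apply upper_of_int (by norm_num) 1 zero_le_one
    intro n c
    have hF := (polF_diff (n + 1) c).diffContOnCl (s := Metric.ball 0 1)
    have hG : DiffContOnCl ℂ (fun z => 2 * ((starRingEnd ℂ) (c 0) * polF (n + 1) c z) - ((‖c 0‖ ^ 2 : ℝ) : ℂ)) (Metric.ball 0 1) := by
      apply Differentiable.diffContOnCl
      have := polF_diff (n + 1) c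
      fun_prop
    have h := int_cert (p := 2) (by norm_num) hF hG (c 0) 1 (by
      intro z _
      rw [h2r, one_mul, Real.rpow_two, Real.rpow_two, ← Complex.normSq_eq_norm_sq, ← Complex.normSq_eq_norm_sq,
        ← Complex.normSq_eq_norm_sq]
      apply le_of_eq
      simp only [Complex.normSq_apply, Complex.sub_re, Complex.sub_im, Complex.mul_re, Complex.conj_re, Complex.conj_im,
        Complex.ofReal_re, Complex.re_ofNat, Complex.im_ofNat, Complex.mul_im]
      ring)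
    rw [h2r] at h ⊢
    rw [Real.one_rpow]
    have h3 : (2 * ((starRingEnd ℂ) (c 0) * polF (n + 1) c 0) - ((‖c 0‖ ^ 2 : ℝ) : ℂ)).re = ‖c 0‖ ^ 2 := by
      rw [polF_zero, mul_comm ((starRingEnd ℂ) (c 0)), Complex.mul_conj, Complex.normSq_eq_norm_sq]
      rw [Complex.sub_re, Complex.ofReal_re, Complex.mul_re, Complex.ofReal_re, Complex.ofReal_im]
      simp
      ring
    rw [h3] at h
    nlinarith [norm_nonneg (c 0)]
  · exact one_le_norm_sub

/-! ### `p = 4` -/

instance fact14 : Fact ((1 : ℝ≥0∞) ≤ 4) := ⟨by norm_num⟩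

theorem gold_ineq (l : ℝ) (hl : l ^ 2 = l + 1) (x y : ℝ) :
    l * (x ^ 2 + y ^ 2) ^ 2 - ((x - 1) ^ 2 + y ^ 2) ^ 2 =
    (l - 1) * ((x + l) ^ 2 + y ^ 2 - 2 * l ^ 3) ^ 2 +
      (-2 * l ^ 2 * (x ^ 2 - y ^ 2) + (4 - 4 * l ^ 2 + 8 * l ^ 3) * x - 1 - 5 * l ^ 3) := by
  linear_combination ((-5)*l^3 + (4)*l^4 + (-4)*l^5 + (2)*y^2 + (-2)*y^2*l + (4)*y^2*l^2 + (-4)*x*l^2 + (8)*x*l^3 + (-4)*x*y^2 + (6)*x^2 + (-6)*x^2*l + (4)*x^2*l^2 + (-4)*x^3) * hl

/-- the quadratic polynomial of the certificate -/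
noncomputable def goldP (l : ℝ) (w : ℂ) : ℂ :=
  -2 * (l : ℂ) ^ 2 * w ^ 2 + (4 - 4 * (l : ℂ) ^ 2 + 8 * (l : ℂ) ^ 3) * w - 1 - 5 * (l : ℂ) ^ 3

theorem goldP_re (l : ℝ) (w : ℂ) : (goldP l w).re =
    -2 * l ^ 2 * (w.re ^ 2 - w.im ^ 2) + (4 - 4 * l ^ 2 + 8 * l ^ 3) * w.re - 1 - 5 * l ^ 3 := by
  unfold goldP
  have h1 : (-2 * (l : ℂ) ^ 2 * w ^ 2 + (4 - 4 * (l : ℂ) ^ 2 + 8 * (l : ℂ) ^ 3) * w - 1 - 5 * (l : ℂ) ^ 3) =
      ((-2 * l ^ 2 : ℝ) : ℂ) * w ^ 2 + ((4 - 4 * l ^ 2 + 8 * l ^ 3 : ℝ) : ℂ) * w + ((-1 - 5 * l ^ 3 : ℝ) : ℂ) := by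
    push_cast
    ring
  rw [h1, Complex.add_re, Complex.add_re, Complex.re_ofReal_mul, Complex.re_ofReal_mul, Complex.ofReal_re, pow_two w,
    Complex.mul_re]
  ring

theorem goldP_one (l : ℝ) (hl : l ^ 2 = l + 1) : (goldP l 1).re = 0 := by
  rw [goldP_re]
  simp only [Complex.one_re, Complex.one_im]
  linear_combination (3 * l - 3) * hl

theorem norm_pow_four (w : ℂ) : ‖w‖ ^ 4 = (w.re ^ 2 + w.im ^ 2) ^ 2 := by
  have : ‖w‖ ^ 4 = (‖w‖ ^ 2) ^ 2 := by ring
  rw [this, ← Complex.normSq_eq_norm_sq, Complex.normSq_apply]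
  ring

theorem gold_w (l : ℝ) (hl : l ^ 2 = l + 1) (hl1 : 1 ≤ l) (w : ℂ) :
    ‖w - 1‖ ^ 4 + (goldP l w).re ≤ l * ‖w‖ ^ 4 := by
  rw [norm_pow_four, norm_pow_four, goldP_re]
  have h := gold_ineq l hl w.re w.im
  simp only [Complex.sub_re, Complex.sub_im, Complex.one_re, Complex.one_im, sub_zero]
  have h2 : 0 ≤ (l - 1) * ((w.re + l) ^ 2 + w.im ^ 2 - 2 * l ^ 3) ^ 2 := by
    apply mul_nonneg (by linarith) (by positivity)
  linarith

theorem gold_w_eq (l : ℝ) (hl : l ^ 2 = l + 1) (w : ℂ) (hw : ‖w + l‖ ^ 2 = 2 * l ^ 3) :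
    l * ‖w‖ ^ 4 = ‖w - 1‖ ^ 4 + (goldP l w).re := by
  rw [norm_pow_four, norm_pow_four, goldP_re]
  have h := gold_ineq l hl w.re w.im
  simp only [Complex.sub_re, Complex.sub_im, Complex.one_re, Complex.one_im, sub_zero]
  rw [← Complex.normSq_eq_norm_sq, Complex.normSq_apply] at hw
  simp only [Complex.add_re, Complex.add_im, Complex.ofReal_re, Complex.ofReal_im, add_zero] at hw
  have h3 : (w.re + l) ^ 2 + w.im ^ 2 - 2 * l ^ 3 = 0 := by linarith
  rw [h3] at h
  linarith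

theorem norm_K0_four : ‖1 - K0 4‖ = ((1 + Real.sqrt 5) / 2) ^ ((1 : ℝ) / 4) := by
  have h4r : (4 : ℝ≥0∞).toReal = 4 := by simp
  obtain ⟨l, hldef⟩ : ∃ l : ℝ, l = (1 + Real.sqrt 5) / 2 := ⟨_, rfl⟩
  have h5 : Real.sqrt 5 ^ 2 = 5 := Real.sq_sqrt (by norm_num)
  have hs5 : 2 ≤ Real.sqrt 5 := by
    rw [show (2 : ℝ) = Real.sqrt 4 by rw [show (4 : ℝ) = 2 ^ 2 by norm_num, Real.sqrt_sq (by norm_num)]]
    exact Real.sqrt_le_sqrt (by norm_num)
  have hs5' : Real.sqrt 5 < 3 := by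
    rw [Real.sqrt_lt' (by norm_num)]
    norm_num
  have hl : l ^ 2 = l + 1 := by
    rw [hldef]
    nlinarith
  have hl1 : 1 ≤ l := by rw [hldef]; linarith
  have hl2 : l < 2 := by rw [hldef]; linarith
  rw [← hldef]
  have hs0 : 0 ≤ l ^ ((1 : ℝ) / 4) := by positivity
  have hs4 : (l ^ ((1 : ℝ) / 4)) ^ (4 : ℝ) = l := by
    rw [← Real.rpow_mul (by linarith)]
    norm_num
  have hrp : ∀ x : ℝ, x ^ (4 : ℝ) = x ^ 4 := fun x => by norm_cast
  apply le_antisymm
  · apply upper_of_int (by norm_num) _ hs0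
    intro n c
    have hF := (polF_diff (n + 1) c).diffContOnCl (s := Metric.ball 0 1)
    rw [h4r, hs4]
    by_cases hc : c 0 = 0
    · rw [hc]
      simp only [sub_zero]
      have h6 : 0 ≤ ∫ t, ‖polF (n + 1) c (fourier 1 t)‖ ^ (4 : ℝ) ∂mu := by positivity
      nlinarith
    · set a := c 0 with ha
      have hG : DiffContOnCl ℂ (fun z => ((‖a‖ ^ 4 : ℝ) : ℂ) * goldP l (polF (n + 1) c z / a)) (Metric.ball 0 1) := by
        apply Differentiable.diffContOnCl
        have := polF_diff (n + 1) c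
        unfold goldP
        fun_prop
      have h := int_cert (p := 4) (by norm_num) hF hG a l (by
        intro z _
        rw [h4r, hrp, hrp, Complex.re_ofReal_mul]
        have h7 := gold_w l hl hl1 (polF (n + 1) c z / a)
        have ha' : 0 < ‖a‖ := norm_pos_iff.mpr hc
        have h8 : ‖polF (n + 1) c z - a‖ = ‖a‖ * ‖polF (n + 1) c z / a - 1‖ := by
          rw [← norm_mul]
          congr 1
          field_simp
        have h9 : ‖polF (n + 1) c z‖ = ‖a‖ * ‖polF (n + 1) c z / a‖ := by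
          rw [← norm_mul]
          congr 1
          field_simp
        rw [h8, h9, mul_pow, mul_pow]
        have h10 : 0 < ‖a‖ ^ 4 := by positivity
        nlinarith)
      rw [h4r, polF_zero, ← ha, div_self hc, Complex.re_ofReal_mul, goldP_one l hl, mul_zero, add_zero] at h
      exact h
  · -- extremal function
    have hl3 : 0 < 2 * l ^ 3 := by positivity
    obtain ⟨b, hb⟩ : ∃ b : ℝ, b = Real.sqrt (l / 2) := ⟨_, rfl⟩
    obtain ⟨Rr, hRr⟩ : ∃ Rr : ℝ, Rr = Real.sqrt (2 * l ^ 3) := ⟨_, rfl⟩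
    have hb0 : 0 ≤ b := by rw [hb]; positivity
    have hb1 : b < 1 := by
      rw [hb, Real.sqrt_lt' one_pos]
      linarith
    have hRb : Rr * b = l + 1 := by
      rw [hb, hRr, ← Real.sqrt_mul (by positivity)]
      have : 2 * l ^ 3 * (l / 2) = (l + 1) ^ 2 := by
        rw [← hl]
        ring
      rw [this, Real.sqrt_sq (by linarith)]
    have hF : DiffContOnCl ℂ (fun z => (Rr : ℂ) * bF b z - l) (Metric.ball 0 1) := by
      have := (bF_diff hb0 hb1).const_smul (Rr : ℂ)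
      exact this.sub_const (l : ℂ)
    have hF0 : (Rr : ℂ) * bF b 0 - l = 1 := by
      unfold bF
      rw [mul_zero, add_zero, zero_add, div_one]
      have : ((Rr * b : ℝ) : ℂ) = ((l + 1 : ℝ) : ℂ) := by rw [hRb]
      push_cast at this
      rw [this]
      ring
    have hG : DiffContOnCl ℂ (fun z => goldP l ((Rr : ℂ) * bF b z - l)) (Metric.ball 0 1) := by
      have hd : Differentiable ℂ (goldP l) := by
        unfold goldP
        fun_prop
      exact hd.comp_diffContOnCl hF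
    apply lower_of_int (by norm_num) _ hs0 hF
    · show (Rr : ℂ) * bF b 0 - l ≠ 0
      rw [hF0]
      exact one_ne_zero
    · have h := int_cert_ge (p := 4) (by norm_num) hF hG 1 l (by
        intro z hz
        rw [h4r, hrp, hrp]
        apply le_of_eq
        apply gold_w_eq l hl
        rw [sub_add_cancel, norm_mul, bF_norm hb0 hb1 hz, mul_one, Complex.norm_real, Real.norm_eq_abs, sq_abs, hRr,
          Real.sq_sqrt hl3.le])
      rw [h4r] at h ⊢
      rw [hs4]
      simp only [hF0] at h ⊢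
      rw [goldP_one l hl, add_zero] at h
      exact h

end explicit

end Pool.Agent.Helper192.Hp
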