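import Mathlib
import Pool.Agent.Helper192.Hardy.A
import Pool.Agent.Helper192.Hardy.B
import Pool.Agent.Helper192.Hardy.C
import Pool.Agent.Helper192.Hardy.D
import Pool.Agent.Helper192.Hardy.E
import Pool.Agent.Helper192.Hardy.F
import Pool.Agent.Helper192.Hardy.H

set_option autoImplicit false

open MeasureTheory AddCircle Filter Topology
open scoped ENNReal

namespace Pool.Agent.Helper192.Hp

section hone

/-- balanced factorisation of an analytic function on the disc -/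
def Fac (u : ℂ → ℂ) : Prop := ∃ g h : ℂ → ℂ, DiffContOnCl ℂ g (Metric.ball 0 1) ∧ DiffContOnCl ℂ h (Metric.ball 0 1) ∧
  (∀ z, ‖z‖ ≤ 1 → g z * h z = u z) ∧ ∀ z, ‖z‖ = 1 → ‖g z‖ = ‖h z‖

theorem Fac_const (c : ℂ) : Fac (fun _ => c) := by
  obtain ⟨s, hs⟩ := IsAlgClosed.exists_pow_nat_eq c (n := 2) (by norm_num)
  exact ⟨fun _ => s, fun _ => s, diffContOnCl_const, diffContOnCl_const, fun _ _ => by rw [← hs]; ring, fun _ _ => rfl⟩

theorem Fac_mul {u v : ℂ → ℂ} (hu : Fac u) (hv : Fac v) : Fac (fun z => u z * v z) := by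
  obtain ⟨g, h, hg, hh, h1, h2⟩ := hu
  obtain ⟨g', h', hg', hh', h1', h2'⟩ := hv
  refine ⟨fun z => g z * g' z, fun z => h z * h' z, hg.smul hg', hh.smul hh', ?_, ?_⟩
  · intro z hz
    show g z * g' z * (h z * h' z) = u z * v z
    rw [← h1 z hz, ← h1' z hz]
    ring
  · intro z hz
    show ‖g z * g' z‖ = ‖h z * h' z‖
    rw [norm_mul, norm_mul, h2 z hz, h2' z hz]

/-- the principal square root of `1 - c z` for `|c| ≤ 1` -/
noncomputable def sq (c z : ℂ) : ℂ := (1 - c * z) ^ ((2 : ℕ) : ℂ)⁻¹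

theorem sq_sq (c z : ℂ) : sq c z * sq c z = 1 - c * z := by
  rw [← pow_two]
  exact Complex.cpow_nat_inv_pow _ two_ne_zero

theorem re_pos_of {w : ℂ} (hw : ‖w‖ < 1) : 0 < (1 - w).re := by
  have := Complex.re_le_norm w
  simp only [Complex.sub_re, Complex.one_re]
  linarith

theorem sq_diff {c : ℂ} (hc : ‖c‖ ≤ 1) : DiffContOnCl ℂ (sq c) (Metric.ball 0 1) := by
  constructor
  · intro z hz
    have hz' : ‖z‖ < 1 := by simpa using hz
    have h1 : ‖c * z‖ < 1 := by
      rw [norm_mul]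
      nlinarith [norm_nonneg z, norm_nonneg c]
    have h2 : 1 - c * z ∈ Complex.slitPlane := Or.inl (re_pos_of h1)
    apply DifferentiableAt.differentiableWithinAt
    unfold sq
    have h3 : DifferentiableAt ℂ (fun z : ℂ => 1 - c * z) z := by fun_prop
    exact h3.cpow_const h2
  · rw [closure_ball _ one_ne_zero]
    intro z hz
    have hz' : ‖z‖ ≤ 1 := by simpa using hz
    have h1 : ‖c * z‖ ≤ 1 := by
      rw [norm_mul]
      nlinarith [norm_nonneg z, norm_nonneg c]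
    have h2 : 0 ≤ (1 - c * z).re := by
      have := Complex.re_le_norm (c * z)
      rw [Complex.sub_re, Complex.one_re]
      linarith
    apply ContinuousAt.continuousWithinAt
    have h3 : ContinuousAt (fun x : ℂ × ℂ => x.1 ^ x.2) (1 - c * z, ((2 : ℕ) : ℂ)⁻¹) := by
      apply Complex.continuousAt_cpow_of_re_pos (Or.inl h2)
      show 0 < (((2 : ℕ) : ℂ)⁻¹).re
      norm_num
    have h4 : ContinuousAt (fun z : ℂ => ((1 - c * z, ((2 : ℕ) : ℂ)⁻¹) : ℂ × ℂ)) z := by fun_prop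
    exact ContinuousAt.comp (f := fun z : ℂ => ((1 - c * z, ((2 : ℕ) : ℂ)⁻¹) : ℂ × ℂ)) h3 h4

theorem Fac_linear (α : ℂ) : Fac (fun z => z - α) := by
  by_cases hα : 1 ≤ ‖α‖
  · have hα0 : α ≠ 0 := by
      rw [← norm_pos_iff]
      linarith
    have hc : ‖α⁻¹‖ ≤ 1 := by
      rw [norm_inv]
      exact inv_le_one_of_one_le₀ hα
    obtain ⟨s, hs⟩ := IsAlgClosed.exists_pow_nat_eq (-α) (n := 2) (by norm_num)
    refine ⟨fun z => s * sq α⁻¹ z, fun z => s * sq α⁻¹ z, (sq_diff hc).const_smul s, (sq_diff hc).const_smul s, ?_, fun _ _ => rfl⟩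
    intro z _
    have h1 := sq_sq α⁻¹ z
    have h2 : s * sq α⁻¹ z * (s * sq α⁻¹ z) = s ^ 2 * (sq α⁻¹ z * sq α⁻¹ z) := by ring
    rw [h2, h1, hs]
    field_simp
    ring
  · push Not at hα
    have hc : ‖(starRingEnd ℂ) α‖ ≤ 1 := by
      rw [Complex.norm_conj]
      exact hα.le
    have hden : ∀ z : ℂ, ‖z‖ ≤ 1 → 1 - (starRingEnd ℂ) α * z ≠ 0 := by
      intro z hz h
      have h1 : ‖(starRingEnd ℂ) α * z‖ < 1 := by
        rw [norm_mul, Complex.norm_conj]
        nlinarith [norm_nonneg z, norm_nonneg α]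
      have := re_pos_of h1
      rw [h] at this
      simp at this
    have hB : DiffContOnCl ℂ (fun z => (z - α) / (1 - (starRingEnd ℂ) α * z)) (Metric.ball 0 1) := by
      apply DifferentiableOn.diffContOnCl
      rw [closure_ball _ one_ne_zero]
      intro z hz
      have hz' : ‖z‖ ≤ 1 := by simpa using hz
      apply DifferentiableAt.differentiableWithinAt
      have h2 : DifferentiableAt ℂ (fun z : ℂ => z - α) z := by fun_prop
      have h3 : DifferentiableAt ℂ (fun z : ℂ => 1 - (starRingEnd ℂ) α * z) z := by fun_prop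
      exact h2.div h3 (hden z hz')
    refine ⟨fun z => (z - α) / (1 - (starRingEnd ℂ) α * z) * sq ((starRingEnd ℂ) α) z, sq ((starRingEnd ℂ) α),
      hB.smul (sq_diff hc), sq_diff hc, ?_, ?_⟩
    · intro z hz
      have h1 := sq_sq ((starRingEnd ℂ) α) z
      rw [mul_assoc, h1]
      exact div_mul_cancel₀ _ (hden z hz)
    · intro z hz
      show ‖(z - α) / (1 - (starRingEnd ℂ) α * z) * sq ((starRingEnd ℂ) α) z‖ = _
      rw [norm_mul, norm_div]
      have h3 : ‖z - α‖ = ‖1 - (starRingEnd ℂ) α * z‖ := by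
        have h4 : 1 - (starRingEnd ℂ) α * z = z * (starRingEnd ℂ) (z - α) := by
          rw [map_sub, mul_sub, Complex.mul_conj, Complex.normSq_eq_norm_sq, hz]
          push_cast
          ring
        rw [h4, norm_mul, hz, one_mul, Complex.norm_conj]
      rw [h3, div_self (norm_ne_zero_iff.mpr (hden z hz.le)), one_mul]

theorem Fac_poly (P : Polynomial ℂ) : Fac (fun z => P.eval z) := by
  have h := (IsAlgClosed.splits P).eq_prod_roots
  have h2 : ∀ s : Multiset ℂ, Fac (fun z => (s.map (fun a => z - a)).prod) := by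
    intro s
    induction s using Multiset.induction_on with
    | empty =>
      simp only [Multiset.map_zero, Multiset.prod_zero]
      exact Fac_const 1
    | cons a s ih =>
      simp only [Multiset.map_cons, Multiset.prod_cons]
      exact Fac_mul (Fac_linear a) ih
  have h3 : (fun z => P.eval z) = fun z => P.leadingCoeff * (P.roots.map (fun a => z - a)).prod := by
    ext1 z
    nth_rewrite 1 [h]
    rw [Polynomial.eval_mul, Polynomial.eval_C, Polynomial.eval_multiset_prod, Multiset.map_map]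
    congr 3
    ext a
    simp
  rw [h3]
  exact Fac_mul (Fac_const _) (h2 _)

theorem Fac_polF (n : ℕ) (c : ℕ → ℂ) : Fac (polF n c) := by
  have h := Fac_poly (∑ k ∈ Finset.range n, Polynomial.C (c k) * Polynomial.X ^ k)
  have h2 : (fun z => (∑ k ∈ Finset.range n, Polynomial.C (c k) * Polynomial.X ^ k : Polynomial ℂ).eval z) = polF n c := by
    ext1 z
    rw [Polynomial.eval_finsetSum]
    unfold polF
    simp
  rwa [h2] at h

theorem sqrt3_facts : 0 < Real.sqrt 3 ∧ Real.sqrt 3 * Real.sqrt 3 = 3 :=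
  ⟨Real.sqrt_pos.mpr (by norm_num), Real.mul_self_sqrt (by norm_num)⟩

theorem cert_one (g h a b : ℂ) (hgh : ‖g‖ = ‖h‖) :
    ‖g * h - a * b‖ + ((((1 / Real.sqrt 3 : ℝ) : ℂ)) * ((starRingEnd ℂ) a * g + (starRingEnd ℂ) b * h - ((‖a‖ ^ 2 + ‖b‖ ^ 2 : ℝ) : ℂ))).re
      ≤ (2 / Real.sqrt 3) * ‖g * h‖ := by
  obtain ⟨hs, hs2⟩ := sqrt3_facts
  set s := Real.sqrt 3 with hsdef
  have h1 : g * h - a * b = (1 / 2 : ℂ) * ((g - a) * (h + b) + (g + a) * (h - b)) := by ring
  have h2 : ‖g * h - a * b‖ ≤ 1 / 2 * (‖g - a‖ * ‖h + b‖ + ‖g + a‖ * ‖h - b‖) := by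
    rw [h1, norm_mul]
    have : ‖(1 / 2 : ℂ)‖ = 1 / 2 := by norm_num
    rw [this]
    have := norm_add_le ((g - a) * (h + b)) ((g + a) * (h - b))
    rw [norm_mul, norm_mul] at this
    linarith
  have hexp : ∀ x y : ℂ, ‖x - y‖ ^ 2 = ‖x‖ ^ 2 - 2 * ((starRingEnd ℂ) y * x).re + ‖y‖ ^ 2 := by
    intro x y
    rw [← Complex.normSq_eq_norm_sq, ← Complex.normSq_eq_norm_sq, ← Complex.normSq_eq_norm_sq]
    simp only [Complex.normSq_apply, Complex.sub_re, Complex.sub_im, Complex.mul_re, Complex.conj_re, Complex.conj_im]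
    ring
  have hexp' : ∀ x y : ℂ, ‖x + y‖ ^ 2 = ‖x‖ ^ 2 + 2 * ((starRingEnd ℂ) y * x).re + ‖y‖ ^ 2 := by
    intro x y
    rw [← Complex.normSq_eq_norm_sq, ← Complex.normSq_eq_norm_sq, ← Complex.normSq_eq_norm_sq]
    simp only [Complex.normSq_apply, Complex.add_re, Complex.add_im, Complex.mul_re, Complex.conj_re, Complex.conj_im]
    ring
  have e1 := hexp g a
  have e2 := hexp' g a
  have e3 := hexp h b
  have e4 := hexp' h b
  -- weighted AM-GM : 2 s x y ≤ 3 x^2 + y^2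
  have am1 : 2 * s * (‖g - a‖ * ‖h + b‖) ≤ 3 * ‖g - a‖ ^ 2 + ‖h + b‖ ^ 2 := by
    nlinarith [sq_nonneg (s * ‖g - a‖ - ‖h + b‖)]
  have am2 : 2 * s * (‖g + a‖ * ‖h - b‖) ≤ ‖g + a‖ ^ 2 + 3 * ‖h - b‖ ^ 2 := by
    nlinarith [sq_nonneg (s * ‖h - b‖ - ‖g + a‖)]
  have hre : ((((1 / s : ℝ) : ℂ)) * ((starRingEnd ℂ) a * g + (starRingEnd ℂ) b * h - ((‖a‖ ^ 2 + ‖b‖ ^ 2 : ℝ) : ℂ))).re
      = (1 / s) * (((starRingEnd ℂ) a * g).re + ((starRingEnd ℂ) b * h).re - (‖a‖ ^ 2 + ‖b‖ ^ 2)) := by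
    rw [Complex.re_ofReal_mul, Complex.sub_re, Complex.add_re, Complex.ofReal_re]
  rw [hre, norm_mul]
  set u := ((starRingEnd ℂ) a * g).re
  set v := ((starRingEnd ℂ) b * h).re
  have h3 : s * ‖g * h - a * b‖ ≤ 2 * (‖g‖ * ‖h‖) - (u + v - (‖a‖ ^ 2 + ‖b‖ ^ 2)) := by
    have hg2 : ‖g‖ ^ 2 = ‖g‖ * ‖h‖ := by rw [← hgh]; ring
    have hh2 : ‖h‖ ^ 2 = ‖g‖ * ‖h‖ := by rw [hgh]; ring
    nlinarith
  have h4 : ‖g * h - a * b‖ ≤ (1 / s) * (2 * (‖g‖ * ‖h‖) - (u + v - (‖a‖ ^ 2 + ‖b‖ ^ 2))) := by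
    rw [one_div_mul_eq_div, le_div_iff₀ hs]
    linarith
  have h5 : 2 / s * (‖g‖ * ‖h‖) = (1 / s) * (2 * (‖g‖ * ‖h‖)) := by ring
  rw [h5]
  linarith

theorem norm_K0_one : ‖1 - K0 1‖ = 2 / Real.sqrt 3 := by
  obtain ⟨hs, hs2⟩ := sqrt3_facts
  have h1r : (1 : ℝ≥0∞).toReal = 1 := by simp
  have hs0 : 0 ≤ 2 / Real.sqrt 3 := by positivity
  apply le_antisymm
  · apply upper_of_int (by norm_num) _ hs0
    intro n c
    have hF := (polF_diff (n + 1) c).diffContOnCl (s := Metric.ball 0 1)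
    obtain ⟨g, h, hg, hh, hgh, hnorm⟩ := Fac_polF (n + 1) c
    have hab : g 0 * h 0 = c 0 := by
      rw [hgh 0 (by simp), polF_zero]
    have hG : DiffContOnCl ℂ (fun z => ((1 / Real.sqrt 3 : ℝ) : ℂ) * ((starRingEnd ℂ) (g 0) * g z + (starRingEnd ℂ) (h 0) * h z - ((‖g 0‖ ^ 2 + ‖h 0‖ ^ 2 : ℝ) : ℂ))) (Metric.ball 0 1) := by
      have h1 := (hg.const_smul ((starRingEnd ℂ) (g 0))).add (hh.const_smul ((starRingEnd ℂ) (h 0)))
      exact (h1.sub_const (((‖g 0‖ ^ 2 + ‖h 0‖ ^ 2 : ℝ) : ℂ))).const_smul (((1 / Real.sqrt 3 : ℝ) : ℂ))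
    have hc := int_cert (p := 1) (by norm_num) hF hG (c 0) (2 / Real.sqrt 3) (by
      intro z hz
      rw [h1r, Real.rpow_one, Real.rpow_one, ← hgh z hz.le, ← hab]
      exact cert_one (g z) (h z) (g 0) (h 0) (hnorm z hz))
    rw [h1r] at hc ⊢
    rw [Real.rpow_one]
    have h0 : (((1 / Real.sqrt 3 : ℝ) : ℂ) * ((starRingEnd ℂ) (g 0) * g 0 + (starRingEnd ℂ) (h 0) * h 0 - ((‖g 0‖ ^ 2 + ‖h 0‖ ^ 2 : ℝ) : ℂ))).re = 0 := by
      have e1 : (starRingEnd ℂ) (g 0) * g 0 = ((‖g 0‖ ^ 2 : ℝ) : ℂ) := by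
        rw [mul_comm, Complex.mul_conj, Complex.normSq_eq_norm_sq]
      have e2 : (starRingEnd ℂ) (h 0) * h 0 = ((‖h 0‖ ^ 2 : ℝ) : ℂ) := by
        rw [mul_comm, Complex.mul_conj, Complex.normSq_eq_norm_sq]
      rw [e1, e2]
      push_cast
      simp
    rw [h0, add_zero] at hc
    exact hc
  · -- extremal function
    set s := Real.sqrt 3 with hsdef
    have hs1 : 1 < s := by nlinarith
    have hsc : (s : ℂ) ≠ 0 := by exact_mod_cast hs.ne'
    have hden : ∀ z : ℂ, ‖z‖ ≤ 1 → (s : ℂ) - z ≠ 0 := by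
      intro z hz h
      have h1 : z = s := by linear_combination -h
      rw [h1, Complex.norm_real, Real.norm_of_nonneg hs.le] at hz
      linarith
    -- g z = (s + z) / (s - z)
    have hg : DiffContOnCl ℂ (fun z : ℂ => ((s : ℂ) + z) / (s - z)) (Metric.ball 0 1) := by
      apply DifferentiableOn.diffContOnCl
      rw [closure_ball _ one_ne_zero]
      intro z hz
      have hz' : ‖z‖ ≤ 1 := by simpa using hz
      apply DifferentiableAt.differentiableWithinAt
      have h2 : DifferentiableAt ℂ (fun z : ℂ => (s : ℂ) + z) z := by fun_prop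
      have h3 : DifferentiableAt ℂ (fun z : ℂ => (s : ℂ) - z) z := by fun_prop
      exact h2.div h3 (hden z hz')
    have hF : DiffContOnCl ℂ (fun z : ℂ => (((s : ℂ) + z) / (s - z)) * (((s : ℂ) + z) / (s - z))) (Metric.ball 0 1) := hg.smul hg
    have hF0 : ((s : ℂ) + 0) / (s - 0) = 1 := by
      rw [add_zero, sub_zero, div_self hsc]
    have hG : DiffContOnCl ℂ (fun z : ℂ => ((2 / s : ℝ) : ℂ) * (((s : ℂ) + z) / (s - z) - 1)) (Metric.ball 0 1) :=
      (hg.sub_const 1).const_smul (((2 / s : ℝ) : ℂ))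
    apply lower_of_int (by norm_num) _ hs0 hF
    · show ((s : ℂ) + 0) / (s - 0) * (((s : ℂ) + 0) / (s - 0)) ≠ 0
      rw [hF0]
      norm_num
    · have h := int_cert_ge (p := 1) (by norm_num) hF hG 1 (2 / s) (by
        intro z hz
        rw [h1r, Real.rpow_one, Real.rpow_one]
        set g := ((s : ℂ) + z) / (s - z) with hgdef
        have hdz := hden z hz.le
        have hrel : ‖g + 1‖ ^ 2 = 3 * ‖g - 1‖ ^ 2 := by
          have e1 : g + 1 = 2 * s / (s - z) := by
            rw [hgdef]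
            field_simp
            ring
          have e2 : g - 1 = 2 * z / (s - z) := by
            rw [hgdef]
            field_simp
            ring
          rw [e1, e2, norm_div, norm_div, norm_mul, norm_mul, hz, Complex.norm_real, Real.norm_of_nonneg hs.le]
          field_simp
          nlinarith
        have hexp : ‖g - 1‖ ^ 2 = ‖g‖ ^ 2 - 2 * g.re + 1 := by
          rw [← Complex.normSq_eq_norm_sq, ← Complex.normSq_eq_norm_sq]
          simp only [Complex.normSq_apply, Complex.sub_re, Complex.sub_im, Complex.one_re, Complex.one_im]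
          ring
        have hexp' : ‖g + 1‖ ^ 2 = ‖g‖ ^ 2 + 2 * g.re + 1 := by
          rw [← Complex.normSq_eq_norm_sq, ← Complex.normSq_eq_norm_sq]
          simp only [Complex.normSq_apply, Complex.add_re, Complex.add_im, Complex.one_re, Complex.one_im]
          ring
        have hp1 : ‖g + 1‖ = s * ‖g - 1‖ := by
          have e3 : ‖g + 1‖ ^ 2 = (s * ‖g - 1‖) ^ 2 := by
            rw [hrel, mul_pow]
            nlinarith
          exact (pow_left_inj₀ (norm_nonneg _) (by positivity) two_ne_zero).mp e3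
        have hFn : ‖g * g - 1‖ = s * ‖g - 1‖ ^ 2 := by
          have : g * g - 1 = (g - 1) * (g + 1) := by ring
          rw [this, norm_mul, hp1]
          ring
        rw [hFn, norm_mul, Complex.re_ofReal_mul, Complex.sub_re, Complex.one_re]
        have hg2 : ‖g‖ ^ 2 = 4 * g.re - 1 := by nlinarith
        have e4 : ‖g - 1‖ ^ 2 = 2 * g.re := by rw [hexp, hg2]; ring
        rw [e4, ← pow_two, hg2]
        apply le_of_eq
        field_simp
        nlinarith)
      rw [h1r] at h ⊢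
      rw [Real.rpow_one]
      have hF0' : (s : ℂ) / (s - 0) = 1 := by rw [sub_zero, div_self hsc]
      simp only [add_zero, hF0', mul_one, sub_self, mul_zero, Complex.zero_re] at h ⊢
      exact h

end hone

end Pool.Agent.Helper192.Hp
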