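import Mathlib
import Pool.Agent.Helper192.Hardy.A
import Pool.Agent.Helper192.Hardy.B
import Pool.Agent.Helper192.Hardy.C
import Pool.Agent.Helper192.Hardy.D
import Pool.Agent.Helper192.Hardy.E
import Pool.Agent.Helper192.Hardy.F
import Pool.Agent.Helper192.Hardy.G

set_option autoImplicit false

open MeasureTheory AddCircle Filter Topology
open scoped ENNReal

namespace Pool.Agent.Helper192.Hp

theorem smooth_ball {q : ℝ} (hq : 1 < q) {ε : ℝ} (hε : 0 < ε) : ∃ τ : ℝ, 0 < τ ∧ τ ≤ 1 ∧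
    ∀ a b : ℂ, ‖a‖ ≤ 1 → ‖b‖ ≤ 1 → ‖a + τ • b‖ ^ q + ‖a - τ • b‖ ^ q ≤ 2 * ‖a‖ ^ q + ε * τ := by
  have hf : ContDiff ℝ 1 (fun x : ℂ => ‖x‖ ^ q) := contDiff_norm_rpow hq
  have hcont : Continuous (fderiv ℝ (fun x : ℂ => ‖x‖ ^ q)) := hf.continuous_fderiv (by norm_num)
  have hdiff : Differentiable ℝ (fun x : ℂ => ‖x‖ ^ q) := hf.differentiable (by norm_num)
  have huc := (isCompact_closedBall (0 : ℂ) 2).uniformContinuousOn_of_continuous hcont.continuousOn
  rw [Metric.uniformContinuousOn_iff] at huc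
  obtain ⟨δ, hδ, huc⟩ := huc ε hε
  refine ⟨min 1 (δ / 4), by positivity, min_le_left _ _, ?_⟩
  intro a b ha hb
  set τ := min 1 (δ / 4) with hτ
  have hτ0 : 0 < τ := by positivity
  have hτ1 : τ ≤ 1 := min_le_left _ _
  have hτδ : τ ≤ δ / 4 := min_le_right _ _
  let g : ℝ → ℝ := fun s => ‖a + s • b‖ ^ q + ‖a - s • b‖ ^ q
  let g' : ℝ → ℝ := fun s => fderiv ℝ (fun x : ℂ => ‖x‖ ^ q) (a + s • b) b + fderiv ℝ (fun x : ℂ => ‖x‖ ^ q) (a - s • b) (-b)
  have hg : ∀ s ∈ Set.Icc 0 τ, HasDerivWithinAt g (g' s) (Set.Icc 0 τ) s := by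
    intro s _
    apply HasDerivAt.hasDerivWithinAt
    have h1 : HasDerivAt (fun s : ℝ => a + s • b) b s := by
      have := ((hasDerivAt_id s).smul_const b).const_add a
      simpa using this
    have h2 : HasDerivAt (fun s : ℝ => a - s • b) (-b) s := by
      have := ((hasDerivAt_id s).smul_const b).const_sub a
      simpa using this
    have h3 := (hdiff (a + s • b)).hasFDerivAt.comp_hasDerivAt s h1
    have h4 := (hdiff (a - s • b)).hasFDerivAt.comp_hasDerivAt s h2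
    exact h3.add h4
  have hbound : ∀ s ∈ Set.Icc 0 τ, ‖g' s‖ ≤ ε := by
    intro s hs
    have hs0 := hs.1
    have hs1 := hs.2
    have hsb : ‖s • b‖ ≤ τ := by
      rw [norm_smul, Real.norm_of_nonneg hs0]
      nlinarith [norm_nonneg b]
    have h1 : a + s • b ∈ Metric.closedBall (0 : ℂ) 2 := by
      rw [mem_closedBall_zero_iff]
      have := norm_add_le a (s • b)
      linarith
    have h2 : a - s • b ∈ Metric.closedBall (0 : ℂ) 2 := by
      rw [mem_closedBall_zero_iff]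
      have := norm_sub_le a (s • b)
      linarith
    have h3 : dist (a + s • b) (a - s • b) < δ := by
      rw [dist_eq_norm]
      have : a + s • b - (a - s • b) = s • b + s • b := by abel
      rw [this]
      have := norm_add_le (s • b) (s • b)
      linarith
    have h4 := (huc _ h1 _ h2 h3).le
    rw [dist_eq_norm] at h4
    have h5 : g' s = (fderiv ℝ (fun x : ℂ => ‖x‖ ^ q) (a + s • b) - fderiv ℝ (fun x : ℂ => ‖x‖ ^ q) (a - s • b)) b := by
      simp only [g', map_neg, sub_apply]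
      ring
    rw [h5]
    have h6 := (fderiv ℝ (fun x : ℂ => ‖x‖ ^ q) (a + s • b) - fderiv ℝ (fun x : ℂ => ‖x‖ ^ q) (a - s • b)).le_opNorm b
    have h7 : ‖fderiv ℝ (fun x : ℂ => ‖x‖ ^ q) (a + s • b) - fderiv ℝ (fun x : ℂ => ‖x‖ ^ q) (a - s • b)‖ * ‖b‖ ≤ ε * 1 := by
      gcongr
    linarith
  have hmv := (convex_Icc (0 : ℝ) τ).norm_image_sub_le_of_norm_hasDerivWithin_le hg hbound
    (Set.left_mem_Icc.mpr hτ0.le) (Set.right_mem_Icc.mpr hτ0.le)
  have h8 : g 0 = 2 * ‖a‖ ^ q := by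
    simp only [g, zero_smul, add_zero, sub_zero]
    ring
  rw [h8, sub_zero, Real.norm_of_nonneg hτ0.le] at hmv
  have h9 := le_trans (le_abs_self _) hmv
  show g τ ≤ _
  linarith

theorem smooth_all {q : ℝ} (hq : 1 < q) {ε : ℝ} (hε : 0 < ε) : ∃ τ : ℝ, 0 < τ ∧ τ ≤ 1 ∧
    ∀ a b : ℂ, ‖a + τ • b‖ ^ q + ‖a - τ • b‖ ^ q ≤ 2 * ‖a‖ ^ q + ε * τ * (‖a‖ ^ q + ‖b‖ ^ q) := by
  obtain ⟨τ, h0, h1, h⟩ := smooth_ball hq hε
  refine ⟨τ, h0, h1, ?_⟩
  intro a b
  have hq0 : 0 < q := by linarith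
  rcases eq_or_lt_of_le (show 0 ≤ max ‖a‖ ‖b‖ from le_max_of_le_left (norm_nonneg a)) with hm | hm
  · have ha : a = 0 := by
      rw [← norm_le_zero_iff, hm]
      exact le_max_left _ _
    have hb : b = 0 := by
      rw [← norm_le_zero_iff, hm]
      exact le_max_right _ _
    subst ha; subst hb
    simp [Real.zero_rpow hq0.ne']
  · set m := max ‖a‖ ‖b‖ with hmdef
    have ha : ‖m⁻¹ • a‖ ≤ 1 := by
      rw [norm_smul, norm_inv, Real.norm_of_nonneg hm.le, inv_mul_le_one₀ hm]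
      exact le_max_left _ _
    have hb : ‖m⁻¹ • b‖ ≤ 1 := by
      rw [norm_smul, norm_inv, Real.norm_of_nonneg hm.le, inv_mul_le_one₀ hm]
      exact le_max_right _ _
    have h2 := h _ _ ha hb
    have e1 : m⁻¹ • a + τ • m⁻¹ • b = m⁻¹ • (a + τ • b) := by
      rw [smul_add, smul_comm τ m⁻¹ b]
    have e2 : m⁻¹ • a - τ • m⁻¹ • b = m⁻¹ • (a - τ • b) := by
      rw [smul_sub, smul_comm τ m⁻¹ b]
    rw [e1, e2] at h2
    simp only [norm_smul, norm_inv, Real.norm_of_nonneg hm.le] at h2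
    rw [Real.mul_rpow (by positivity) (norm_nonneg _), Real.mul_rpow (by positivity) (norm_nonneg _),
      Real.mul_rpow (by positivity) (norm_nonneg _), Real.inv_rpow hm.le] at h2
    have hmq : 0 < m ^ q := Real.rpow_pos_of_pos hm q
    have h3 := mul_le_mul_of_nonneg_left h2 hmq.le
    have h4 : m ^ q * ((m ^ q)⁻¹ * ‖a + τ • b‖ ^ q + (m ^ q)⁻¹ * ‖a - τ • b‖ ^ q) = ‖a + τ • b‖ ^ q + ‖a - τ • b‖ ^ q := by
      field_simp
    have h5 : m ^ q * (2 * ((m ^ q)⁻¹ * ‖a‖ ^ q) + ε * τ) = 2 * ‖a‖ ^ q + ε * τ * m ^ q := by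
      field_simp
    rw [h4, h5] at h3
    refine h3.trans ?_
    have h6 : m ^ q ≤ ‖a‖ ^ q + ‖b‖ ^ q := by
      rcases le_total ‖a‖ ‖b‖ with hab | hab
      · rw [hmdef, max_eq_right hab]
        have := Real.rpow_nonneg (norm_nonneg a) q
        linarith
      · rw [hmdef, max_eq_left hab]
        have := Real.rpow_nonneg (norm_nonneg b) q
        linarith
    have h7 : ε * τ * m ^ q ≤ ε * τ * (‖a‖ ^ q + ‖b‖ ^ q) := by gcongr
    linarith

section

variable {p : ℝ≥0∞} [hp1 : Fact (1 ≤ p)]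

theorem norm_rpow_int (hp : p ≠ ∞) (f : LP p) : ‖f‖ ^ p.toReal = ∫ t, ‖f t‖ ^ p.toReal ∂mu := by
  have hp0 : p ≠ 0 := by
    intro h
    have := hp1.out
    rw [h] at this
    simp at this
  have hq : 0 < p.toReal := ENNReal.toReal_pos hp0 hp
  rw [Lp.norm_def, (Lp.memLp f).eLpNorm_eq_integral_rpow_norm hp0 hp, ENNReal.toReal_ofReal (by positivity),
    ← Real.rpow_mul (by positivity), inv_mul_cancel₀ hq.ne', Real.rpow_one]

theorem rpow_integrable (hp : p ≠ ∞) (f : LP p) : Integrable (fun t => ‖f t‖ ^ p.toReal) mu := by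
  have hp0 : p ≠ 0 := by
    intro h
    have := hp1.out
    rw [h] at this
    simp at this
  exact (Lp.memLp f).integrable_norm_rpow hp0 hp

/-- uniform smoothness of `L^p`, `1 < p < ∞` -/
theorem smooth_Lp (hp1' : 1 < p.toReal) (hp : p ≠ ∞) {ε : ℝ} (hε : 0 < ε) : ∃ τ : ℝ, 0 < τ ∧ τ ≤ 1 ∧
    ∀ x y : LP p, ‖x‖ ≤ 1 → ‖y‖ ≤ 1 → ‖x + (τ : ℂ) • y‖ + ‖x - (τ : ℂ) • y‖ ≤ 2 + ε * τ := by
  obtain ⟨τ, h0, h1, h⟩ := smooth_all hp1' (ε := ε / 2) (by positivity)
  refine ⟨τ, h0, h1, ?_⟩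
  intro x y hx hy
  have hq : 0 < p.toReal := by linarith
  set q := p.toReal with hqdef
  have h2 : ‖x + (τ : ℂ) • y‖ ^ q + ‖x - (τ : ℂ) • y‖ ^ q ≤ 2 * ‖x‖ ^ q + ε / 2 * τ * (‖x‖ ^ q + ‖y‖ ^ q) := by
    rw [norm_rpow_int hp, norm_rpow_int hp, norm_rpow_int hp, norm_rpow_int hp,
      ← integral_add (rpow_integrable hp _) (rpow_integrable hp _),
      ← integral_add (rpow_integrable hp _) (rpow_integrable hp _), ← integral_const_mul, ← integral_const_mul]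
    have hadd := integral_add (μ := mu) (f := fun t => 2 * ‖x t‖ ^ p.toReal)
      (g := fun t => ε / 2 * τ * (‖x t‖ ^ p.toReal + ‖y t‖ ^ p.toReal)) ((rpow_integrable hp _).const_mul _)
        (((rpow_integrable hp _).add (rpow_integrable hp _)).const_mul _)
    rw [← hadd]
    apply integral_mono_ae
    · exact (rpow_integrable hp _).add (rpow_integrable hp _)
    · exact ((rpow_integrable hp _).const_mul _).add (((rpow_integrable hp _).add (rpow_integrable hp _)).const_mul _)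
    · filter_upwards [Lp.coeFn_add x ((τ : ℂ) • y), Lp.coeFn_sub x ((τ : ℂ) • y), Lp.coeFn_smul (τ : ℂ) y] with t ht1 ht2 ht3
      simp only [ht1, ht2, Pi.add_apply, Pi.sub_apply, ht3, Pi.smul_apply]
      have := h (x t) (y t)
      simpa only [Complex.real_smul, smul_eq_mul] using this
  have hxq : ‖x‖ ^ q ≤ 1 := Real.rpow_le_one (norm_nonneg _) hx hq.le
  have hyq : ‖y‖ ^ q ≤ 1 := Real.rpow_le_one (norm_nonneg _) hy hq.le
  have h3 : ‖x + (τ : ℂ) • y‖ ^ q + ‖x - (τ : ℂ) • y‖ ^ q ≤ 2 + ε * τ := by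
    have : ε / 2 * τ * (‖x‖ ^ q + ‖y‖ ^ q) ≤ ε / 2 * τ * (1 + 1) := by gcongr
    linarith
  have h5 := (convexOn_rpow hp1'.le).2 (x := ‖x + (τ : ℂ) • y‖) (norm_nonneg _) (y := ‖x - (τ : ℂ) • y‖) (norm_nonneg _)
    (show (0 : ℝ) ≤ 1 / 2 by norm_num) (show (0 : ℝ) ≤ 1 / 2 by norm_num) (by norm_num)
  simp only [smul_eq_mul] at h5
  have h6 : (1 / 2 * ‖x + (τ : ℂ) • y‖ + 1 / 2 * ‖x - (τ : ℂ) • y‖) ^ q ≤ 1 + ε * τ / 2 := by
    refine h5.trans ?_
    linarith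
  have hετ : 0 < ε * τ := by positivity
  have h7 : (1 : ℝ) + ε * τ / 2 ≤ (1 + ε * τ / 2) ^ q := by
    have := Real.rpow_le_rpow_of_exponent_le (show (1 : ℝ) ≤ 1 + ε * τ / 2 by linarith) hp1'.le
    rwa [Real.rpow_one] at this
  have h8 := rpow_le_imp (by positivity) (by positivity) hq (h6.trans h7)
  linarith

end

end Pool.Agent.Helper192.Hp
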