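import Mathlib
import Pool.Agent.Helper192.Hardy.A
import Pool.Agent.Helper192.Hardy.B
import Pool.Agent.Helper192.Hardy.C
import Pool.Agent.Helper192.Hardy.D
import Pool.Agent.Helper192.Hardy.E
import Pool.Agent.Helper192.Hardy.F
import Pool.Agent.Helper192.Hardy.G
import Pool.Agent.Helper192.Hardy.J

set_option autoImplicit false

open MeasureTheory AddCircle Filter Topology
open scoped ENNReal

namespace Pool.Agent.Helper192.Hp

section

variable {p : ℝ≥0∞} [hp1 : Fact (1 ≤ p)]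

theorem smooth_H (hp1' : 1 < p.toReal) (hp : p ≠ ∞) {ε : ℝ} (hε : 0 < ε) : ∃ τ : ℝ, 0 < τ ∧ τ ≤ 1 ∧
    ∀ x y : HardySp p, ‖x‖ ≤ 1 → ‖y‖ ≤ 1 → ‖x + (τ : ℂ) • y‖ + ‖x - (τ : ℂ) • y‖ ≤ 2 + ε * τ := by
  obtain ⟨τ, h0, h1, h⟩ := smooth_Lp (p := p) hp1' hp hε
  exact ⟨τ, h0, h1, fun x y hx hy => h x y hx hy⟩

theorem Tseq_contr (hp : p ≠ ∞) (n : ℕ) (f : HardySp p) : ‖Tseq p n f‖ ≤ ‖f‖ :=
  TL_norm_le hp (rad_sq_nonneg n) (rad_sq_lt n) (f : LP p)

/-- On `H^p` with `1 < p < ∞` the adjoints of the dilations converge strongly to the identity. -/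
theorem star_conv (hp1' : 1 < p.toReal) (hp : p ≠ ∞) (z : HardySp p →L[ℂ] ℂ) (η : ℝ) (hη : 0 < η) :
    ∀ᶠ n in atTop, ‖z - z.comp (Tseq p n)‖ < η := by
  set K := ‖z‖ with hK
  have hK0 : 0 ≤ K := ContinuousLinearMap.opNorm_nonneg _
  obtain ⟨τ, h0, h1, h⟩ := smooth_H (p := p) hp1' hp (ε := η / (4 * (K + 1))) (by positivity)
  have hδ : 0 < τ * η / 12 := by positivity
  obtain ⟨x0, hx0, hzx0⟩ := z.exists_lt_apply_of_lt_opNorm (r := K - τ * η / 12) (by linarith)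
  obtain ⟨c, hc1, hc⟩ := Complex.exists_norm_eq_mul_self (z x0)
  obtain ⟨x, hx⟩ : ∃ x, x = c • x0 := ⟨_, rfl⟩
  have hxn : ‖x‖ ≤ 1 := by
    rw [hx, norm_smul, hc1, one_mul]
    exact hx0.le
  have hzx : K - τ * η / 12 < (z x).re := by
    rw [hx, map_smul, smul_eq_mul, ← hc, Complex.ofReal_re]
    exact hzx0
  have hlim : Tendsto (fun n => (z (Tseq p n x)).re) atTop (𝓝 (z x).re) :=
    (Complex.continuous_re.tendsto _).comp ((z.continuous.tendsto x).comp (Tseq_tendsto hp x))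
  have hev := hlim.eventually (lt_mem_nhds hzx)
  filter_upwards [hev] with n hn
  have hball : ∀ y : HardySp p, ‖y‖ ≤ 1 → ‖(z - z.comp (Tseq p n)) y‖ ≤ η / 2 := by
    intro y0 hy0
    obtain ⟨d, hd1, hd⟩ := Complex.exists_norm_eq_mul_self ((z - z.comp (Tseq p n)) y0)
    obtain ⟨y, hy⟩ : ∃ y, y = d • y0 := ⟨_, rfl⟩
    have hyn : ‖y‖ ≤ 1 := by
      rw [hy, norm_smul, hd1, one_mul]
      exact hy0
    have hzy : ‖(z - z.comp (Tseq p n)) y0‖ = (z y).re - (z (Tseq p n y)).re := by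
      have h2 : (z - z.comp (Tseq p n)) y = (‖(z - z.comp (Tseq p n)) y0‖ : ℂ) := by
        rw [hd, hy, map_smul, smul_eq_mul]
      have h3 := congrArg Complex.re h2
      rw [Complex.ofReal_re] at h3
      rw [← h3, ← Complex.sub_re]
      rfl
    rw [hzy]
    have h2 := h x y hxn hyn
    have h3 : (z (x + (τ : ℂ) • y)).re ≤ K * ‖x + (τ : ℂ) • y‖ :=
      (Complex.re_le_norm _).trans (z.le_opNorm _)
    have h4 : (z (Tseq p n (x - (τ : ℂ) • y))).re ≤ K * ‖x - (τ : ℂ) • y‖ := by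
      refine ((Complex.re_le_norm _).trans (z.le_opNorm _)).trans ?_
      have := Tseq_contr hp n (x - (τ : ℂ) • y)
      gcongr
    rw [map_add, map_smul z, smul_eq_mul, Complex.add_re, Complex.re_ofReal_mul] at h3
    rw [map_sub (Tseq p n), map_smul (Tseq p n), map_sub z, map_smul z, smul_eq_mul, Complex.sub_re, Complex.re_ofReal_mul] at h4
    have h5 : K * ‖x + (τ : ℂ) • y‖ + K * ‖x - (τ : ℂ) • y‖ ≤ K * (2 + η / (4 * (K + 1)) * τ) := by
      rw [← mul_add]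
      gcongr
    have h6 : K * (η / (4 * (K + 1))) ≤ η / 4 := by
      rw [mul_div_assoc', div_le_div_iff₀ (by positivity) (by norm_num)]
      nlinarith
    have h7 : K * (2 + η / (4 * (K + 1)) * τ) = 2 * K + τ * (K * (η / (4 * (K + 1)))) := by ring
    have h8 : τ * (K * (η / (4 * (K + 1)))) ≤ τ * (η / 4) := by gcongr
    have h9 : τ * ((z y).re - (z (Tseq p n y)).re) ≤ τ * (η / 2) := by linarith
    exact le_of_mul_le_mul_left h9 h0
  have hle : ‖z - z.comp (Tseq p n)‖ ≤ η / 2 := by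
    apply ContinuousLinearMap.opNorm_le_bound _ (by positivity)
    intro y
    by_cases hy : y = 0
    · subst hy
      simp
    · have hy0 : 0 < ‖y‖ := norm_pos_iff.mpr hy
      have h2 := hball (((‖y‖⁻¹ : ℝ) : ℂ) • y) (by
        rw [norm_smul, Complex.norm_real, norm_inv, norm_norm, inv_mul_cancel₀ hy0.ne'])
      rw [map_smul, norm_smul, Complex.norm_real, norm_inv, norm_norm, inv_mul_le_iff₀ hy0] at h2
      linarith
  linarith

end

end Pool.Agent.Helper192.Hp
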