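import Mathlib
import Pool.Agent.Helper192.Hardy.A
import Pool.Agent.Helper192.Hardy.B
import Pool.Agent.Helper192.Hardy.C
import Pool.Agent.Helper192.Hardy.D
import Pool.Agent.Helper192.Hardy.E
import Pool.Agent.Helper192.Hardy.F
import Pool.Agent.Helper192.Hardy.G
import Pool.Agent.Helper192.Hardy.J
import Pool.Agent.Helper192.Hardy.K

set_option autoImplicit false

open MeasureTheory AddCircle Filter Topology
open scoped ENNReal

namespace Pool.Agent.Helper192.Hp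

section

variable {p : ℝ≥0∞} [hp1 : Fact (1 ≤ p)]

/-- translation of a continuous function -/
noncomputable def trans (a : TT) (f : C(TT, ℂ)) : C(TT, ℂ) := ⟨fun t => f (t + a), by fun_prop⟩

theorem trans_apply (a : TT) (f : C(TT, ℂ)) (t : TT) : trans a f t = f (t + a) := rfl

theorem trans_norm (hp : p ≠ ∞) (a : TT) (f : C(TT, ℂ)) : ‖cl p (trans a f)‖ = ‖cl p f‖ := by
  have hq : 0 < p.toReal := by linarith [one_le_toReal (p := p) hp]
  have h : ‖cl p (trans a f)‖ ^ p.toReal = ‖cl p f‖ ^ p.toReal := by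
    rw [norm_cl_rpow hp, norm_cl_rpow hp]
    exact rot (fun t => ‖f t‖ ^ p.toReal) a
  exact le_antisymm (rpow_le_imp (norm_nonneg _) (norm_nonneg _) hq h.le)
    (rpow_le_imp (norm_nonneg _) (norm_nonneg _) hq h.ge)

theorem fourier_add_arg (k : ℤ) (t a : TT) : (fourier k (t + a) : ℂ) = fourier k t * fourier k a := by
  rw [fourier_apply, fourier_apply, fourier_apply, smul_add, toCircle_add, Circle.coe_mul]

theorem fourier_nsmul_arg (k : ℤ) (β : TT) (j : ℕ) : (fourier k (j • β) : ℂ) = (fourier k β) ^ j := by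
  rw [fourier_apply, fourier_apply, smul_comm, toCircle_nsmul, Circle.coe_pow]

/-- averaging over the `N`-th roots of unity -/
theorem exists_avg {N : ℕ} (hN : 0 < N) : ∃ β : TT, ∀ k : ℤ, ∀ t : TT,
    (1 / (N : ℂ)) * ∑ j ∈ Finset.range N, (fourier k (t + j • β) : ℂ) = if (N : ℤ) ∣ k then fourier k t else 0 := by
  obtain ⟨c, hcdef⟩ : ∃ c : ℂ, c = Complex.exp (2 * Real.pi * Complex.I / N) := ⟨_, rfl⟩
  have hprim : IsPrimitiveRoot c N := by
    rw [hcdef]
    exact Complex.isPrimitiveRoot_exp N hN.ne'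
  have hc1 : ‖c‖ = 1 := hprim.norm'_eq_one hN.ne'
  obtain ⟨β, hβ⟩ := exists_angle' hc1
  refine ⟨β, ?_⟩
  intro k t
  have hN' : (N : ℂ) ≠ 0 := by exact_mod_cast hN.ne'
  have h1 : ∑ j ∈ Finset.range N, (fourier k (t + j • β) : ℂ) = fourier k t * ∑ j ∈ Finset.range N, (c ^ k) ^ j := by
    rw [Finset.mul_sum]
    apply Finset.sum_congr rfl
    intro j _
    rw [fourier_add_arg, fourier_nsmul_arg, hβ]
  rw [h1]
  split_ifs with h
  · have : c ^ k = 1 := (hprim.zpow_eq_one_iff_dvd k).mpr h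
    rw [this]
    simp only [one_pow, Finset.sum_const, Finset.card_range, nsmul_eq_mul, mul_one]
    field_simp
  · have h2 : c ^ k ≠ 1 := fun hh => h ((hprim.zpow_eq_one_iff_dvd k).mp hh)
    have h3 : (c ^ k) ^ N = 1 := by
      rw [← zpow_natCast, ← zpow_mul, mul_comm, zpow_mul, zpow_natCast, hprim.pow_eq_one, one_zpow]
    have h4 : ∑ j ∈ Finset.range N, (c ^ k) ^ j = 0 := by
      have := geom_sum_mul (c ^ k) N
      rw [h3, sub_self] at this
      rcases mul_eq_zero.mp this with h5 | h5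
      · exact h5
      · exact absurd (sub_eq_zero.mp h5) h2
    rw [h4, mul_zero, mul_zero]

/-- contraction from averaging -/
theorem avg_norm_le (hp : p ≠ ∞) {N : ℕ} (hN : 0 < N) (β : TT) (f g : C(TT, ℂ))
    (h : ∀ t, g t = (1 / (N : ℂ)) * ∑ j ∈ Finset.range N, f (t + j • β)) : ‖cl p g‖ ≤ ‖cl p f‖ := by
  have hg : g = (1 / (N : ℂ)) • ∑ j ∈ Finset.range N, trans (j • β) f := by
    ext t
    rw [h t]
    simp only [ContinuousMap.coe_smul, ContinuousMap.coe_sum, Pi.smul_apply, Finset.sum_apply, smul_eq_mul, trans_apply]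
  rw [hg, cl_smul, cl_sum, norm_smul, norm_div, norm_one, Complex.norm_natCast]
  have h1 : ‖∑ j ∈ Finset.range N, cl p (trans (j • β) f)‖ ≤ N * ‖cl p f‖ := by
    refine (norm_sum_le _ _).trans (le_of_eq ?_)
    rw [Finset.sum_congr rfl (fun j _ => trans_norm hp (j • β) f)]
    simp
  have hN' : (0 : ℝ) < N := by exact_mod_cast hN
  rw [one_div, inv_mul_le_iff₀ hN']
  exact h1

theorem meanH_gH (n : ℕ) (c : ℕ → ℂ) : meanH p (gH p 1 (n + 1) c) = c 0 := by
  rw [meanH_apply, gH_coe]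
  unfold polN
  rw [cl_sum, ← coeffL_apply, map_sum]
  rw [Finset.sum_eq_single 0]
  · rw [cl_smul, map_smul, coeffL_apply, fc_fourier]
    simp
  · intro k _ hk
    rw [cl_smul, map_smul, coeffL_apply, fc_fourier, if_neg, smul_zero]
    push_cast
    omega
  · intro h
    exact absurd (Finset.mem_range.mpr (Nat.succ_pos n)) h

theorem meanH_le (f : HardySp p) : ‖meanH p f‖ ≤ ‖f‖ := coeffL_norm_le 0 (f : LP p)

theorem oneH_norm_le : ‖oneH p‖ ≤ 1 := fourier_norm_le (p := p) 0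

/-- `‖w₀ + g(z^N)‖ ≤ ‖w + g(z^N)‖` for polynomials `w` of degree `< N` -/
theorem proj_le (hp : p ≠ ∞) {N : ℕ} (hN : 0 < N) (L : ℕ) (hL : L + 1 ≤ N) (w : ℕ → ℂ) (n : ℕ) (c : ℕ → ℂ) :
    ‖w 0 • oneH p + gH p N n c‖ ≤ ‖gH p 1 (L + 1) w + gH p N n c‖ := by
  have h1 : ((w 0 • oneH p + gH p N n c : HardySp p) : LP p) = cl p (w 0 • fourier 0 + polN N n c) := by
    rw [cl_add, cl_smul, ← gH_coe]
    rfl
  have h2 : ((gH p 1 (L + 1) w + gH p N n c : HardySp p) : LP p) = cl p (polN 1 (L + 1) w + polN N n c) := by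
    rw [cl_add, ← gH_coe, ← gH_coe]
    rfl
  show ‖((w 0 • oneH p + gH p N n c : HardySp p) : LP p)‖ ≤ ‖((gH p 1 (L + 1) w + gH p N n c : HardySp p) : LP p)‖
  rw [h1, h2]
  obtain ⟨β, hβ⟩ := exists_avg hN
  apply avg_norm_le hp hN β
  intro t
  have e1 : ∀ s : TT, (polN 1 (L + 1) w + polN N n c) s =
      ∑ k ∈ Finset.range (L + 1), w k * fourier ((k * 1 : ℕ) : ℤ) s + ∑ k ∈ Finset.range n, c k * fourier ((k * N : ℕ) : ℤ) s := by
    intro s
    simp only [polN, ContinuousMap.add_apply, ContinuousMap.coe_sum, Finset.sum_apply, ContinuousMap.coe_smul, Pi.smul_apply, smul_eq_mul]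
  simp only [e1]
  rw [Finset.sum_add_distrib, Finset.sum_comm, Finset.sum_comm (s := Finset.range N) (t := Finset.range n), mul_add,
    Finset.mul_sum, Finset.mul_sum]
  have e2 : ∀ (a : ℕ → ℂ) (m : ℕ → ℤ) (k : ℕ), (1 / (N : ℂ)) * ∑ j ∈ Finset.range N, a k * fourier (m k) (t + j • β) =
      a k * (if (N : ℤ) ∣ m k then fourier (m k) t else 0) := by
    intro a m k
    rw [← hβ, ← Finset.mul_sum]
    ring
  rw [Finset.sum_congr rfl (fun k _ => e2 w (fun k => ((k * 1 : ℕ) : ℤ)) k),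
    Finset.sum_congr rfl (fun k _ => e2 c (fun k => ((k * N : ℕ) : ℤ)) k)]
  have e3 : ∑ k ∈ Finset.range (L + 1), w k * (if (N : ℤ) ∣ ((k * 1 : ℕ) : ℤ) then (fourier ((k * 1 : ℕ) : ℤ) t : ℂ) else 0) = w 0 * fourier 0 t := by
    rw [Finset.sum_eq_single 0]
    · simp
    · intro k hk hk0
      rw [if_neg, mul_zero]
      rw [mul_one, Int.natCast_dvd_natCast]
      intro hdvd
      have := Nat.le_of_dvd (Nat.pos_of_ne_zero hk0) hdvd
      have := Finset.mem_range.mp hk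
      omega
    · intro h
      exact absurd (Finset.mem_range.mpr (Nat.succ_pos L)) h
  have e4 : ∑ k ∈ Finset.range n, c k * (if (N : ℤ) ∣ ((k * N : ℕ) : ℤ) then (fourier ((k * N : ℕ) : ℤ) t : ℂ) else 0) = polN N n c t := by
    simp only [polN, ContinuousMap.coe_sum, Finset.sum_apply, ContinuousMap.coe_smul, Pi.smul_apply, smul_eq_mul]
    apply Finset.sum_congr rfl
    intro k _
    rw [if_pos]
    rw [Int.natCast_dvd_natCast]
    exact Dvd.intro_left k rfl
  rw [e3, e4]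
  rfl

theorem far_lower (hp : p ≠ ∞) (v : HardySp p) (n : ℕ) (c : ℕ → ℂ) (η : ℝ) (hη : 0 < η) :
    ∃ N0 : ℕ, ∀ N, N0 ≤ N → ‖gH p N n c‖ ≤ ‖v + gH p N n c‖ + ‖meanH p v‖ + η := by
  obtain ⟨L, w, hw⟩ := gH_dense hp v (η / 2) (by positivity)
  refine ⟨L + 1, ?_⟩
  intro N hN
  have h1 := proj_le hp (show 0 < N by omega) L hN w n c
  have h2 : ‖gH p N n c‖ ≤ ‖w 0 • oneH p + gH p N n c‖ + ‖w 0 • oneH p‖ := by
    have : gH p N n c = (w 0 • oneH p + gH p N n c) - w 0 • oneH p := by abel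
    nth_rewrite 1 [this]
    exact norm_sub_le _ _
  have h3 : ‖w 0 • oneH p‖ ≤ ‖w 0‖ := by
    rw [norm_smul]
    exact mul_le_of_le_one_right (norm_nonneg _) oneH_norm_le
  have h4 : ‖w 0‖ ≤ ‖meanH p v‖ + η / 2 := by
    rw [← meanH_gH (p := p) L w]
    have : gH p 1 (L + 1) w = v - (v - gH p 1 (L + 1) w) := by abel
    rw [this, map_sub]
    refine (norm_sub_le _ _).trans ?_
    have := meanH_le (v - gH p 1 (L + 1) w)
    linarith
  have h5 : ‖gH p 1 (L + 1) w + gH p N n c‖ ≤ ‖v + gH p N n c‖ + η / 2 := by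
    have : gH p 1 (L + 1) w + gH p N n c = (v + gH p N n c) - (v - gH p 1 (L + 1) w) := by abel
    rw [this]
    refine (norm_sub_le _ _).trans ?_
    linarith
  linarith

/-- lower bound from one compact operator that almost preserves the mean -/
theorem lower_star (hp : p ≠ ∞) (M : ℝ)
    (h : ∀ ε : ℝ, 0 < ε → ∃ T : HardySp p →L[ℂ] HardySp p, IsCompactOperator T ∧
      ‖ContinuousLinearMap.id ℂ (HardySp p) - T‖ ≤ M ∧ ‖meanH p - (meanH p).comp T‖ < ε) : ‖1 - K0 p‖ ≤ M := by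
  have hM0 : 0 ≤ M := by
    obtain ⟨T, -, hT, -⟩ := h 1 one_pos
    exact (ContinuousLinearMap.opNorm_nonneg _).trans hT
  apply opNorm_le_of_pol hp _ M hM0
  intro n c
  set c' : ℕ → ℂ := fun k => if k = 0 then 0 else c k with hc'
  have hsplit : ∀ N, gH p N (n + 1) c = c 0 • oneH p + gH p N (n + 1) c' := fun N => gH_split N n c
  have h1 : (1 - K0 p) (gH p 1 (n + 1) c) = gH p 1 (n + 1) c' := by
    show gH p 1 (n + 1) c - K0 p (gH p 1 (n + 1) c) = _
    rw [K0_gH, hsplit 1]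
    abel
  rw [h1]
  apply le_of_forall_pos_le_add
  intro η hη
  obtain ⟨T, hTc, hTM, hTm⟩ := h (η / (4 * (‖c 0‖ + 1))) (by positivity)
  obtain ⟨v, hv⟩ : ∃ v, v = c 0 • oneH p - T (c 0 • oneH p) := ⟨_, rfl⟩
  have hmv : ‖meanH p v‖ ≤ η / 4 := by
    have e : meanH p v = c 0 • (meanH p - (meanH p).comp T) (oneH p) := by
      rw [hv, map_smul, ← smul_sub, map_smul, map_sub]
      rfl
    rw [e, norm_smul]
    have h2 := (meanH p - (meanH p).comp T).le_opNorm (oneH p)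
    have h3 : ‖meanH p - (meanH p).comp T‖ * ‖oneH p‖ ≤ η / (4 * (‖c 0‖ + 1)) * 1 := by
      have := oneH_norm_le (p := p)
      gcongr
    have h4 : ‖c 0‖ * ‖(meanH p - (meanH p).comp T) (oneH p)‖ ≤ ‖c 0‖ * (η / (4 * (‖c 0‖ + 1)) * 1) := by
      gcongr
      exact h2.trans h3
    refine h4.trans ?_
    rw [mul_one, mul_div_assoc', div_le_div_iff₀ (by positivity) (by norm_num)]
    nlinarith [norm_nonneg (c 0)]
  obtain ⟨N0, hN0⟩ := far_lower hp v (n + 1) c' (η / 4) (by positivity)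
  obtain ⟨N, hNN0, hN, hTN⟩ := compact_far hp T hTc (n + 1) c' (by simp [hc']) (η / 4) (by positivity) N0
  have h2 := hN0 N hNN0
  have h3 : ‖v + gH p N (n + 1) c'‖ ≤ ‖(ContinuousLinearMap.id ℂ (HardySp p) - T) (gH p N (n + 1) c)‖ + ‖T (gH p N (n + 1) c')‖ := by
    have e : v + gH p N (n + 1) c' = (ContinuousLinearMap.id ℂ (HardySp p) - T) (gH p N (n + 1) c) + T (gH p N (n + 1) c') := by
      show _ = (gH p N (n + 1) c - T (gH p N (n + 1) c)) + _
      rw [hsplit N, map_add, hv]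
      abel
    rw [e]
    exact norm_add_le _ _
  have h4 : ‖(ContinuousLinearMap.id ℂ (HardySp p) - T) (gH p N (n + 1) c)‖ ≤ M * ‖gH p N (n + 1) c‖ := by
    refine ((ContinuousLinearMap.id ℂ (HardySp p) - T).le_opNorm _).trans ?_
    gcongr
  have h5 : ‖gH p 1 (n + 1) c'‖ = ‖gH p N (n + 1) c'‖ := by
    rw [gH_norm hp one_pos, gH_norm hp hN]
  have h6 : ‖gH p 1 (n + 1) c‖ = ‖gH p N (n + 1) c‖ := by
    rw [gH_norm hp one_pos, gH_norm hp hN]
  rw [h5, h6]
  linarith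

end

end Pool.Agent.Helper192.Hp
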