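import Mathlib
import Pool.Agent.Helper192.Hardy.A
import Pool.Agent.Helper192.Hardy.B
import Pool.Agent.Helper192.Hardy.C
import Pool.Agent.Helper192.Hardy.D
import Pool.Agent.Helper192.Hardy.E
import Pool.Agent.Helper192.Hardy.F
import Pool.Agent.Helper192.Hardy.G
import Pool.Agent.Helper192.Hardy.J
import Pool.Agent.Helper192.Hardy.K
import Pool.Agent.Helper192.Hardy.L

set_option autoImplicit false

open MeasureTheory AddCircle Filter Topology
open scoped ENNReal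

namespace Pool.Agent.Helper192.Hp

/-- The admissible constants in the dual compact approximation property. -/
def dcapValues (X : Type) [NormedAddCommGroup X] [NormedSpace ℂ X] : Set ℝ :=
  {M : ℝ | 0 < M ∧ ∀ ε : ℝ, 0 < ε → ∀ G : Finset (X →L[ℂ] ℂ), ∃ T : X →L[ℂ] X, IsCompactOperator T ∧
    ‖ContinuousLinearMap.id ℂ X - T‖ ≤ M ∧ ∀ z ∈ G, ‖z - z.comp T‖ < ε}

/-- The dual compact approximation constant `M*(X)`. -/
noncomputable def dcapConst (X : Type) [NormedAddCommGroup X] [NormedSpace ℂ X] : ℝ := sInf (dcapValues X)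

section

variable {p : ℝ≥0∞} [hp1 : Fact (1 ≤ p)]

theorem norm_K0_pos : 0 < ‖1 - K0 p‖ := by
  by_contra hcon
  have h0 : ‖1 - K0 p‖ = 0 := le_antisymm (not_lt.mp hcon) (ContinuousLinearMap.opNorm_nonneg _)
  have h1 := (1 - K0 p).le_opNorm (eH p 1)
  rw [h0, zero_mul] at h1
  have h2 : (1 - K0 p) (eH p 1) = eH p 1 := by
    show eH p 1 - K0 p (eH p 1) = _
    rw [K0_apply, eH_coe, fc_fourier, if_neg (by norm_num), zero_smul, sub_zero]
  rw [h2] at h1
  have h3 := coeffL_norm_le (p := p) 1 ((eH p 1 : HardySp p) : LP p)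
  rw [coeffL_apply, eH_coe, fc_fourier] at h3
  simp only [Nat.cast_one, if_true, norm_one] at h3
  have h4 : ‖cl p (fourier 1)‖ ≤ 0 := h1
  linarith

theorem dcap_mem (hp1' : 1 < p.toReal) (hp : p ≠ ∞) : ‖1 - K0 p‖ ∈ dcapValues (HardySp p) := by
  refine ⟨norm_K0_pos, ?_⟩
  intro ε hε G
  have h : ∀ᶠ n in atTop, ∀ z ∈ G, ‖z - z.comp (Tseq p n)‖ < ε := by
    rw [Filter.eventually_all_finset]
    intro z _
    exact star_conv hp1' hp z ε hε
  obtain ⟨n, hn⟩ := h.exists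
  exact ⟨Tseq p n, Tseq_compact n, Tseq_bound hp n, hn⟩

theorem dcapConst_eq (hp1' : 1 < p.toReal) (hp : p ≠ ∞) : dcapConst (HardySp p) = ‖1 - K0 p‖ := by
  have hlow : ∀ M ∈ dcapValues (HardySp p), ‖1 - K0 p‖ ≤ M := by
    intro M hM
    apply lower_star hp
    intro ε hε
    obtain ⟨T, h1, h2, h3⟩ := hM.2 ε hε {meanH p}
    exact ⟨T, h1, h2, h3 _ (Finset.mem_singleton_self _)⟩
  apply le_antisymm
  · exact csInf_le ⟨‖1 - K0 p‖, hlow⟩ (dcap_mem hp1' hp)
  · exact le_csInf ⟨_, dcap_mem hp1' hp⟩ hlow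

end

end Pool.Agent.Helper192.Hp
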